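import Pool.Agent.Lib.MP_b24dd2_co.Convert

set_option autoImplicit false
open scoped Matrix

namespace Pool.Agent.Lib.MP_b24dd2_co

variable {v b : ℕ}

/-- Cyclic interval of length `k` starting at `i`. -/
def cyc (k : ℕ) (i x : Fin v) : ℕ := if (x - i).val < k then 1 else 0

lemma cyc_le_one (k : ℕ) (i x : Fin v) : cyc k i x ≤ 1 := by
  unfold cyc; split <;> simp

lemma sum_lt_ind {k : ℕ} (hk : k ≤ v) : ∑ y : Fin v, (if y.val < k then 1 else 0) = k := by
  rw [Fin.sum_univ_eq_sum_range (fun t => if t < k then 1 else 0) v, ← Finset.card_filter]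
  have : (Finset.range v).filter (fun t => t < k) = Finset.range k := by
    ext t
    simp only [Finset.mem_filter, Finset.mem_range]
    omega
  rw [this, Finset.card_range]

lemma sum_cyc_right {k : ℕ} [NeZero v] (hk : k ≤ v) (i : Fin v) : ∑ x, cyc k i x = k := by
  unfold cyc
  exact (Equiv.sum_comp (Equiv.subRight i) (fun y : Fin v => if y.val < k then 1 else 0)).trans
    (sum_lt_ind hk)

lemma sum_cyc_left {k : ℕ} [NeZero v] (hk : k ≤ v) (x : Fin v) : ∑ i, cyc k i x = k := by
  unfold cyc
  exact (Equiv.sum_comp (Equiv.subLeft x) (fun y : Fin v => if y.val < k then 1 else 0)).trans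
    (sum_lt_ind hk)

/-- The columns of a balanced design with `β = 1`. -/
lemma col_dichotomy {k : ℕ} {n : Fin v → Fin b → ℕ} (h2 : ∀ j, ∑ i, n i j = k)
    (h3 : ∀ a d, a ≠ d → ∑ j, n a j * n d j = 1) (j : Fin b) :
    (∃ i, n i j = k ∧ ∀ x, x ≠ i → n x j = 0) ∨ (∀ x, n x j ≤ 1) := by
  by_cases h : ∀ x, n x j ≤ 1
  · exact Or.inr h
  · left
    push Not at h
    obtain ⟨i, hi⟩ := h
    have h0 : ∀ x, x ≠ i → n x j = 0 := by
      intro x hx
      by_contra hne
      have h4 := h3 x i hx
      have h5 : n x j * n i j ≤ ∑ j, n x j * n i j :=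
        Finset.single_le_sum (f := fun j => n x j * n i j) (fun _ _ => Nat.zero_le _)
          (Finset.mem_univ j)
      have h6 : 1 * 2 ≤ n x j * n i j := Nat.mul_le_mul (by omega) hi
      omega
    refine ⟨i, ?_, h0⟩
    rw [← h2 j]
    exact (Finset.sum_eq_single i (fun x _ hx => h0 x hx)
      (fun h => absurd (Finset.mem_univ i) h)).symm

/-- The new matrix: pure columns are replaced by cyclic intervals. -/
def pureMat (k : ℕ) (n : Fin v → Fin b → ℕ) : Matrix (Fin v) (Fin b) ℕ :=
  fun x j => (∑ i, if n i j = k then cyc k i x else 0) +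
    (if ∃ i, n i j = k then 0 else n x j)

lemma pureMat_pure {k : ℕ} {n : Fin v → Fin b → ℕ} (hk : 2 ≤ k) {i : Fin v} {j : Fin b}
    (h : n i j = k) (h0 : ∀ x, x ≠ i → n x j = 0) (x : Fin v) :
    pureMat k n x j = cyc k i x := by
  unfold pureMat
  rw [if_pos ⟨i, h⟩, add_zero, Finset.sum_eq_single i]
  · rw [if_pos h]
  · intro y _ hy
    rw [if_neg]
    rw [h0 y hy]
    omega
  · intro h; exact absurd (Finset.mem_univ i) h

lemma pureMat_other {k : ℕ} {n : Fin v → Fin b → ℕ} (hk : 2 ≤ k) {j : Fin b}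
    (h : ∀ x, n x j ≤ 1) (x : Fin v) : pureMat k n x j = n x j := by
  unfold pureMat
  have h1 : ∀ i, n i j ≠ k := fun i => by have := h i; omega
  rw [if_neg (fun ⟨i, hi⟩ => h1 i hi), Finset.sum_eq_zero (fun i _ => if_neg (h1 i)), zero_add]

theorem beta_one {k r Γ : ℕ} {n : Matrix (Fin v) (Fin b) ℕ} (h1 : ∀ i, ∑ j, n i j = r)
    (h2 : ∀ j, ∑ i, n i j = k) (h3 : ∀ a d, a ≠ d → ∑ j, n a j * n d j = 1)
    (h4 : ∀ a, ∑ j, n a j * n a j = r + Γ) (hΓ : 2 ≤ Γ) (hk : 2 ≤ k) (hkv : k < v)
    (hr0 : 0 < r) (hrel : r * k = r + Γ + (v - 1) * 1) {e : ℝ}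
    (he : e * ((r : ℝ) * k) = v * (1 : ℕ)) : Concl v b k r e := by
  have : NeZero v := ⟨by omega⟩
  have hv : 2 ≤ v := by omega
  have hv0 : (0 : ℝ) < v := by
    have : 0 < v := by omega
    exact_mod_cast this
  -- number of pure blocks per treatment
  have hA : ∀ i, (∑ j, if n i j = k then 1 else 0) * (k * (k - 1)) = Γ := by
    intro i
    have e1 : ∀ j, n i j * n i j = (if n i j = k then 1 else 0) * (k * (k - 1)) + n i j := by
      intro j
      have hkk : k * (k - 1) + k = k * k := by
        obtain ⟨t, ht⟩ : ∃ t, k = t + 1 := ⟨k - 1, by omega⟩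
        rw [ht]; simp; ring
      rcases col_dichotomy h2 h3 j with ⟨i', hi', h0⟩ | h
      · by_cases hii : i = i'
        · subst hii
          rw [if_pos hi', hi', one_mul, hkk]
        · rw [h0 i hii, if_neg (by omega)]
          simp
      · have := h i
        have hne : n i j ≠ k := by omega
        rw [if_neg hne]
        interval_cases (n i j) <;> simp
    have e2 := h4 i
    rw [Finset.sum_congr rfl (fun j _ => e1 j), Finset.sum_add_distrib, ← Finset.sum_mul, h1] at e2
    omega
  have hAeq : ∀ i i', (∑ j, if n i j = k then 1 else 0) = ∑ j, if n i' j = k then 1 else 0 := by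
    intro i i'
    have e1 := (hA i).trans (hA i').symm
    have hpos : 0 < k * (k - 1) := Nat.mul_pos (by omega) (by omega)
    exact Nat.eq_of_mul_eq_mul_right hpos e1
  obtain ⟨A, hAA⟩ : ∃ A : ℕ, ∀ i, (∑ j, if n i j = k then 1 else 0) = A :=
    ⟨_, fun i => hAeq i ⟨0, by omega⟩⟩
  set N := pureMat k n with hN
  have hle : ∀ x j, N x j ≤ 1 := by
    intro x j
    rcases col_dichotomy h2 h3 j with ⟨i', hi', h0⟩ | h
    · rw [hN, pureMat_pure hk hi' h0]; exact cyc_le_one _ _ _
    · rw [hN, pureMat_other hk h]; exact h x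
  have hcol : ∀ j, ∑ x, N x j = k := by
    intro j
    rcases col_dichotomy h2 h3 j with ⟨i', hi', h0⟩ | h
    · rw [hN, Finset.sum_congr rfl (fun x _ => pureMat_pure hk hi' h0 x)]
      exact sum_cyc_right hkv.le i'
    · rw [hN, Finset.sum_congr rfl (fun x _ => pureMat_other hk h x)]
      exact h2 j
  have hrow : ∀ x, ∑ j, N x j = r := by
    intro x
    have e1 : ∀ j, N x j + k * (if n x j = k then 1 else 0) =
        (∑ i, if n i j = k then cyc k i x else 0) + n x j := by
      intro j
      rcases col_dichotomy h2 h3 j with ⟨i', hi', h0⟩ | h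
      · rw [hN, pureMat_pure hk hi' h0, Finset.sum_eq_single i']
        · rw [if_pos hi']
          by_cases hx : x = i'
          · subst hx
            rw [if_pos hi', hi']; ring
          · rw [h0 x hx, if_neg (by omega)]
            simp
        · intro y _ hy
          rw [if_neg]
          rw [h0 y hy]; omega
        · intro h; exact absurd (Finset.mem_univ _) h
      · have h5 : ∀ i, n i j ≠ k := fun i => by have := h i; omega
        rw [hN, pureMat_other hk h, if_neg (h5 x),
          Finset.sum_eq_zero (fun i _ => if_neg (h5 i))]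
        ring
    have e2 : ∑ j, N x j + k * A = k * A + r := by
      calc ∑ j, N x j + k * A = ∑ j, (N x j + k * (if n x j = k then 1 else 0)) := by
            rw [Finset.sum_add_distrib, ← Finset.mul_sum, hAA]
        _ = ∑ j, ((∑ i, if n i j = k then cyc k i x else 0) + n x j) :=
            Finset.sum_congr rfl (fun j _ => e1 j)
        _ = ∑ i, ∑ j, (if n i j = k then cyc k i x else 0) + r := by
            rw [Finset.sum_add_distrib, h1, Finset.sum_comm]
        _ = ∑ i, A * cyc k i x + r := by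
            congr 1
            refine Finset.sum_congr rfl (fun i _ => ?_)
            rw [← hAA i, Finset.sum_mul]
            refine Finset.sum_congr rfl (fun j _ => ?_)
            split <;> simp
        _ = k * A + r := by
            rw [← Finset.mul_sum, sum_cyc_left hkv.le]; ring
    omega
  -- the deviation matrix
  have hrelR : (r : ℝ) * k = r + Γ + (v - 1) := by
    have h7 : ((v - 1 : ℕ) : ℝ) = (v : ℝ) - 1 := by
      rw [Nat.cast_sub (by omega)]; simp
    rw [← h7]
    have : ((r * k : ℕ) : ℝ) = ((r + Γ + (v - 1) * 1 : ℕ) : ℝ) := by rw [hrel]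
    push_cast at this
    rw [mul_one] at this
    exact this
  have hdev : dev N k r (v : ℝ) = gram n - gram N := by
    ext a d
    rw [Matrix.sub_apply]
    by_cases had : a = d
    · subst had
      rw [dev_apply_diag, gram_apply n]
      have : ∑ j, ((n a j : ℕ) : ℝ) * (n a j : ℕ) = r + Γ := by
        have := h4 a
        have h5 : ((∑ j, n a j * n a j : ℕ) : ℝ) = ((r + Γ : ℕ) : ℝ) := by rw [this]
        push_cast at h5
        exact h5
      rw [this, hrelR]
      field_simp
      ring
    · rw [dev_apply_ne _ _ _ _ had, gram_apply n]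
      have : ∑ j, ((n a j : ℕ) : ℝ) * (n d j : ℕ) = 1 := by
        have := h3 a d had
        have h5 : ((∑ j, n a j * n d j : ℕ) : ℝ) = ((1 : ℕ) : ℝ) := by rw [this]
        push_cast at h5
        exact h5
      rw [this]
      field_simp
  have hform : ∀ (P : Matrix (Fin v) (Fin b) ℕ) (z : Fin v → ℝ),
      z ⬝ᵥ (gram P *ᵥ z) = ∑ j, (∑ x, (P x j : ℝ) * z x) ^ 2 := by
    intro P z
    simp only [dotProduct, Matrix.mulVec, gram_apply, Finset.sum_mul, Finset.mul_sum]
    rw [Finset.sum_congr rfl (fun x _ => Finset.sum_comm), Finset.sum_comm]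
    refine Finset.sum_congr rfl (fun j _ => ?_)
    rw [sq, Finset.sum_mul_sum]
    refine Finset.sum_congr rfl (fun x _ => Finset.sum_congr rfl (fun y _ => ?_))
    ring
  have hpsd : ∀ z : Fin v → ℝ, 0 ≤ z ⬝ᵥ (dev N k r (v : ℝ) *ᵥ z) := by
    intro z
    rw [hdev, Matrix.sub_mulVec, dotProduct_sub, hform, hform, ← Finset.sum_sub_distrib]
    have e1 : ∀ j, (∑ x, (n x j : ℝ) * z x) ^ 2 - (∑ x, (N x j : ℝ) * z x) ^ 2 =
        ∑ i, (if n i j = k then (1 : ℝ) else 0) *
          ((k : ℝ) ^ 2 * z i ^ 2 - (∑ x, (cyc k i x : ℝ) * z x) ^ 2) := by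
      intro j
      rcases col_dichotomy h2 h3 j with ⟨i', hi', h0⟩ | h
      · rw [Finset.sum_eq_single (f := fun i => (if n i j = k then (1 : ℝ) else 0) *
          ((k : ℝ) ^ 2 * z i ^ 2 - (∑ x, (cyc k i x : ℝ) * z x) ^ 2)) i']
        · rw [if_pos hi', one_mul, Finset.sum_eq_single (f := fun x => (n x j : ℝ) * z x) i']
          · rw [hi']
            simp only [hN, pureMat_pure hk hi' h0]
            ring
          · intro x _ hx
            rw [h0 x hx]; simp
          · intro h; exact absurd (Finset.mem_univ _) h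
        · intro y _ hy
          rw [if_neg, zero_mul]
          rw [h0 y hy]; omega
        · intro h; exact absurd (Finset.mem_univ _) h
      · have h5 : ∀ i, n i j ≠ k := fun i => by have := h i; omega
        have e0 : ∑ i, (if n i j = k then (1 : ℝ) else 0) *
            ((k : ℝ) ^ 2 * z i ^ 2 - (∑ x, (cyc k i x : ℝ) * z x) ^ 2) = 0 :=
          Finset.sum_eq_zero (fun i _ => by rw [if_neg (h5 i), zero_mul])
        rw [e0]
        simp only [hN, pureMat_other hk h]
        ring
    rw [Finset.sum_congr rfl (fun j _ => e1 j), Finset.sum_comm]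
    simp only [← Finset.sum_mul]
    have e2 : ∀ i, ∑ j, (if n i j = k then (1 : ℝ) else 0) = A := by
      intro i
      rw [← hAA i]
      push_cast
      rfl
    simp only [e2, ← Finset.mul_sum]
    refine mul_nonneg (Nat.cast_nonneg _) ?_
    rw [Finset.sum_sub_distrib, sub_nonneg]
    have e3 : ∀ i, (∑ x, (cyc k i x : ℝ) * z x) ^ 2 ≤ k * ∑ x, (cyc k i x : ℝ) * z x ^ 2 := by
      intro i
      have e4 : ∀ x, (cyc k i x : ℝ) ^ 2 = cyc k i x := by
        intro x
        unfold cyc
        split <;> simp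
      have e5 := Finset.sum_mul_sq_le_sq_mul_sq Finset.univ (fun x => (cyc k i x : ℝ))
        (fun x => (cyc k i x : ℝ) * z x)
      have e6 : ∀ x, (cyc k i x : ℝ) * ((cyc k i x : ℝ) * z x) = (cyc k i x : ℝ) * z x := by
        intro x
        rw [← mul_assoc, ← sq, e4]
      have e7 : ∀ x, ((cyc k i x : ℝ) * z x) ^ 2 = (cyc k i x : ℝ) * z x ^ 2 := by
        intro x
        rw [mul_pow, e4]
      simp only [e6, e4, e7] at e5
      have e8 : ∑ x, (cyc k i x : ℝ) = k := by
        rw [← Nat.cast_sum, sum_cyc_right hkv.le]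
      rw [e8] at e5
      exact e5
    refine (Finset.sum_le_sum (fun i _ => e3 i)).trans (le_of_eq ?_)
    rw [← Finset.mul_sum, Finset.sum_comm]
    simp only [← Finset.sum_mul]
    have e9 : ∀ x : Fin v, ∑ i, (cyc k i x : ℝ) = k := by
      intro x
      rw [← Nat.cast_sum, sum_cyc_left hkv.le]
    simp only [e9, ← Finset.mul_sum]
    ring
  have hE0 : dev N k r (v : ℝ) ≠ 0 := by
    intro h0
    have h5 := congrFun (congrFun h0 ⟨0, by omega⟩) ⟨0, by omega⟩
    rw [dev_apply_diag, gram_apply, hrelR] at h5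
    have h6 : ∑ j, ((N ⟨0, by omega⟩ j : ℕ) : ℝ) * ((N ⟨0, by omega⟩ j : ℕ) : ℝ) = r := by
      rw [← hrow ⟨0, by omega⟩, Nat.cast_sum]
      refine Finset.sum_congr rfl (fun j _ => ?_)
      have := hle ⟨0, by omega⟩ j
      interval_cases (N ⟨0, by omega⟩ j) <;> simp
    rw [h6] at h5
    have h7 : (v : ℝ) / v = 1 := by field_simp
    rw [h7] at h5
    have h8 : (2 : ℝ) ≤ Γ := by exact_mod_cast hΓ
    simp only [Matrix.zero_apply] at h5
    linarith
  obtain ⟨hq, htr⟩ := trace_inv_lt (dev_symm N k r (v : ℝ)) hv0 hpsd hE0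
  refine ⟨N, hrow, hcol, hle, ?_⟩
  refine convert_bound hrow hcol hr0 (by omega) hv hv0 hv0 hq ?_
  rw [he]
  rw [Fintype.card_fin] at htr
  have h5 : (v : ℝ) / v = 1 := by field_simp
  rw [h5] at htr
  have h6 := mul_lt_mul_of_pos_left htr hv0
  have h7 : (v : ℝ) * (1 / v) = 1 := by field_simp
  push_cast
  rw [mul_one, mul_sub, h7]
  linarith

end Pool.Agent.Lib.MP_b24dd2_co
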