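import Pool.Agent.Lib.MP_b24dd2_co.LinAlg

set_option autoImplicit false
open scoped Matrix

namespace Pool.Agent.Lib.MP_b24dd2_co

/-- The concurrence matrix `N Nᵀ` over the reals. -/
def gram {v b : ℕ} (N : Matrix (Fin v) (Fin b) ℕ) : Matrix (Fin v) (Fin v) ℝ :=
  N.map (Nat.cast : ℕ → ℝ) * (N.map (Nat.cast : ℕ → ℝ))ᵀ

/-- The all-ones matrix. -/
def JJ (v : ℕ) : Matrix (Fin v) (Fin v) ℝ := Matrix.of (fun _ _ => (1 : ℝ))

lemma gram_apply {v b : ℕ} (N : Matrix (Fin v) (Fin b) ℕ) (a c : Fin v) :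
    gram N a c = ∑ j, (N a j : ℝ) * (N c j : ℝ) := by
  simp [gram, Matrix.mul_apply]

lemma gram_symm {v b : ℕ} (N : Matrix (Fin v) (Fin b) ℕ) : (gram N)ᵀ = gram N := by
  ext a c
  rw [Matrix.transpose_apply, gram_apply, gram_apply]
  exact Finset.sum_congr rfl (fun j _ => mul_comm _ _)

lemma gram_row_sum {v b k r : ℕ} {N : Matrix (Fin v) (Fin b) ℕ}
    (hr : ∀ i, ∑ j, N i j = r) (hk : ∀ j, ∑ i, N i j = k) (a : Fin v) :
    ∑ c, gram N a c = (r : ℝ) * k := by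
  simp only [gram_apply]
  rw [Finset.sum_comm]
  have : ∀ j, ∑ c, (N a j : ℝ) * (N c j : ℝ) = (N a j : ℝ) * k := by
    intro j
    rw [← Finset.mul_sum, ← Nat.cast_sum, hk j]
  simp only [this]
  rw [← Finset.sum_mul, ← Nat.cast_sum, hr a]

lemma JJ_mul_JJ (v : ℕ) : JJ v * JJ v = (v : ℝ) • JJ v := by
  ext a c
  simp [JJ, Matrix.mul_apply]

lemma gram_mul_JJ {v b k r : ℕ} {N : Matrix (Fin v) (Fin b) ℕ}
    (hr : ∀ i, ∑ j, N i j = r) (hk : ∀ j, ∑ i, N i j = k) :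
    gram N * JJ v = ((r : ℝ) * k) • JJ v := by
  ext a c
  rw [Matrix.mul_apply]
  simp only [JJ, Matrix.of_apply, mul_one, Matrix.smul_apply, smul_eq_mul]
  exact gram_row_sum hr hk a

/-- The deviation matrix: `(rk - N Nᵀ + (c/v) J) - c`. -/
noncomputable def dev {v b : ℕ} (N : Matrix (Fin v) (Fin b) ℕ) (k r : ℕ) (c : ℝ) :
    Matrix (Fin v) (Fin v) ℝ :=
  ((r : ℝ) * k) • (1 : Matrix (Fin v) (Fin v) ℝ) - gram N + (c / v) • JJ v -
    c • (1 : Matrix (Fin v) (Fin v) ℝ)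

lemma dev_symm {v b : ℕ} (N : Matrix (Fin v) (Fin b) ℕ) (k r : ℕ) (c : ℝ) :
    (dev N k r c)ᵀ = dev N k r c := by
  have hJ : (JJ v)ᵀ = JJ v := by ext; simp [JJ]
  simp only [dev, Matrix.transpose_sub, Matrix.transpose_add, Matrix.transpose_smul,
    Matrix.transpose_one, gram_symm, hJ]

lemma dev_apply_diag {v b : ℕ} (N : Matrix (Fin v) (Fin b) ℕ) (k r : ℕ) (c : ℝ) (a : Fin v) :
    dev N k r c a a = (r : ℝ) * k - gram N a a + c / v - c := by
  simp [dev, JJ]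

lemma dev_apply_ne {v b : ℕ} (N : Matrix (Fin v) (Fin b) ℕ) (k r : ℕ) (c : ℝ) {a d : Fin v}
    (h : a ≠ d) : dev N k r c a d = c / v - gram N a d := by
  simp [dev, JJ, Matrix.one_apply_ne h]
  ring

/-- The conclusion: a connected binary design with efficiency factor larger than `e`. -/
def Concl (v b k r : ℕ) (e : ℝ) : Prop :=
  ∃ N : Matrix (Fin v) (Fin b) ℕ,
          (∀ i, ∑ j, N i j = r) ∧ (∀ j, ∑ i, N i j = k) ∧ (∀ i j, N i j ≤ 1) ∧
          ((1 : Matrix (Fin v) (Fin v) ℝ)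
              - (1 / ((r : ℝ) * (k : ℝ))) •
                  (N.map (Nat.cast : ℕ → ℝ) * (N.map (Nat.cast : ℕ → ℝ))ᵀ)
              + (1 / (v : ℝ)) • Matrix.of (fun _ _ => (1 : ℝ))).det ≠ 0 ∧
          e < ((v : ℝ) - 1) /
            (Matrix.trace
              (((1 : Matrix (Fin v) (Fin v) ℝ)
                  - (1 / ((r : ℝ) * (k : ℝ))) •
                      (N.map (Nat.cast : ℕ → ℝ) * (N.map (Nat.cast : ℕ → ℝ))ᵀ)
                  + (1 / (v : ℝ)) • Matrix.of (fun _ _ => (1 : ℝ)))⁻¹) - 1)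

/-- Conversion of a trace bound into the conclusion of the frozen statement. -/
theorem convert_bound {v b k r : ℕ} {N : Matrix (Fin v) (Fin b) ℕ}
    (hr : ∀ i, ∑ j, N i j = r) (hk : ∀ j, ∑ i, N i j = k) (hr0 : 0 < r) (hk0 : 0 < k)
    (hv : 2 ≤ v) {c m e : ℝ} (hc : 0 < c) (hm : 0 < m)
    (hq : ∀ z : Fin v → ℝ, m * (z ⬝ᵥ z) ≤
      z ⬝ᵥ ((c • (1 : Matrix (Fin v) (Fin v) ℝ) + dev N k r c) *ᵥ z))
    (htr : e * ((r : ℝ) * k) *
      (Matrix.trace (c • (1 : Matrix (Fin v) (Fin v) ℝ) + dev N k r c)⁻¹ - 1 / c) < v - 1) :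
    ((1 : Matrix (Fin v) (Fin v) ℝ)
              - (1 / ((r : ℝ) * (k : ℝ))) •
                  (N.map (Nat.cast : ℕ → ℝ) * (N.map (Nat.cast : ℕ → ℝ))ᵀ)
              + (1 / (v : ℝ)) • Matrix.of (fun _ _ => (1 : ℝ))).det ≠ 0 ∧
          e < ((v : ℝ) - 1) /
            (Matrix.trace
              (((1 : Matrix (Fin v) (Fin v) ℝ)
                  - (1 / ((r : ℝ) * (k : ℝ))) •
                      (N.map (Nat.cast : ℕ → ℝ) * (N.map (Nat.cast : ℕ → ℝ))ᵀ)
                  + (1 / (v : ℝ)) • Matrix.of (fun _ _ => (1 : ℝ)))⁻¹) - 1) := by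
  have hrk : (0 : ℝ) < (r : ℝ) * k := by positivity
  have hvpos : (0 : ℝ) < v := by
    have : 0 < v := by omega
    exact_mod_cast this
  set M := c • (1 : Matrix (Fin v) (Fin v) ℝ) + dev N k r c with hM
  have hMeq : M = ((r : ℝ) * k) • (1 : Matrix (Fin v) (Fin v) ℝ) - gram N + (c / v) • JJ v := by
    rw [hM, dev]; abel
  have hMs : Mᵀ = M := by
    rw [hM, Matrix.transpose_add, Matrix.transpose_smul, Matrix.transpose_one, dev_symm]
  have hdet := det_ne_zero_of_quad hm hq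
  have hu : IsUnit M.det := isUnit_iff_ne_zero.2 hdet
  have hMJ : M * JJ v = c • JJ v := by
    rw [hMeq, add_mul, sub_mul, smul_mul_assoc, one_mul, gram_mul_JJ hr hk, sub_self, zero_add,
      smul_mul_assoc, JJ_mul_JJ, smul_smul]
    congr 1
    field_simp
  have hM1 : M *ᵥ (fun _ => (1 : ℝ)) = fun _ => c := by
    ext a
    have := congrFun (congrFun hMJ a) ⟨0, by omega⟩
    rw [Matrix.mul_apply] at this
    simpa [JJ, Matrix.mulVec, dotProduct] using this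
  have hW1 : M⁻¹ * M = 1 := Matrix.nonsing_inv_mul _ hu
  have hW2 : M * M⁻¹ = 1 := Matrix.mul_nonsing_inv _ hu
  have hWs : (M⁻¹)ᵀ = M⁻¹ := by rw [Matrix.transpose_nonsing_inv, hMs]
  have hWJ : M⁻¹ * JJ v = (1 / c) • JJ v := by
    have h1 : M⁻¹ * (M * JJ v) = c • (M⁻¹ * JJ v) := by rw [hMJ, mul_smul_comm]
    rw [← Matrix.mul_assoc, hW1, one_mul] at h1
    rw [h1, smul_smul]
    have : 1 / c * c = 1 := by field_simp
    rw [this, one_smul]
    rw [← h1]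
  have hJW : JJ v * M⁻¹ = (1 / c) • JJ v := by
    have h1 := congrArg Matrix.transpose hWJ
    rw [Matrix.transpose_mul, hWs, Matrix.transpose_smul] at h1
    have hJ : (JJ v)ᵀ = JJ v := by ext; simp [JJ]
    rwa [hJ] at h1
  set A := (1 : Matrix (Fin v) (Fin v) ℝ) - (1 / ((r : ℝ) * (k : ℝ))) •
      (N.map (Nat.cast : ℕ → ℝ) * (N.map (Nat.cast : ℕ → ℝ))ᵀ)
              + (1 / (v : ℝ)) • Matrix.of (fun _ _ => (1 : ℝ)) with hA
  have hA2 : A = (1 / ((r : ℝ) * k)) • (M - (c / v) • JJ v) + (1 / (v : ℝ)) • JJ v := by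
    have h1 : M - (c / v) • JJ v = ((r : ℝ) * k) • (1 : Matrix (Fin v) (Fin v) ℝ) - gram N := by
      rw [hMeq]; abel
    rw [h1, smul_sub, smul_smul]
    have : 1 / ((r : ℝ) * k) * ((r : ℝ) * k) = 1 := by field_simp
    rw [this, one_smul, hA]
    rfl
  set X := ((r : ℝ) * k) • M⁻¹ + ((1 - (r : ℝ) * k / c) / v) • JJ v with hX
  have hAX : A * X = 1 := by
    have h1 : (M - (c / v) • JJ v) * M⁻¹ = 1 - (1 / (v : ℝ)) • JJ v := by
      rw [sub_mul, hW2, smul_mul_assoc, hJW, smul_smul]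
      congr 2
      field_simp
    have h2 : (M - (c / v) • JJ v) * JJ v = 0 := by
      rw [sub_mul, hMJ, smul_mul_assoc, JJ_mul_JJ, smul_smul]
      have : c / v * (v : ℝ) = c := by field_simp
      rw [this, sub_self]
    rw [hA2, hX, add_mul, mul_add, mul_add, smul_mul_smul_comm, smul_mul_smul_comm,
      smul_mul_smul_comm, smul_mul_smul_comm, h1, h2, hJW, JJ_mul_JJ, smul_zero, add_zero,
      smul_smul, smul_smul]
    have h3 : 1 / ((r : ℝ) * k) * ((r : ℝ) * k) = 1 := by field_simp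
    rw [h3, one_smul, sub_add, sub_eq_self, ← add_smul, ← sub_smul]
    have h4 : (1 / (v : ℝ)) - (1 / (v : ℝ) * ((r : ℝ) * k) * (1 / c) +
        1 / (v : ℝ) * ((1 - (r : ℝ) * k / c) / v) * v) = 0 := by
      field_simp
      ring
    rw [h4, zero_smul]
  have hAinv : A⁻¹ = X := Matrix.inv_eq_right_inv hAX
  have hAdet : A.det ≠ 0 := by
    intro h0
    have := congrArg Matrix.det hAX
    rw [Matrix.det_mul, h0, zero_mul, Matrix.det_one] at this
    exact zero_ne_one this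
  refine ⟨hAdet, ?_⟩
  have htrX : Matrix.trace X - 1 = ((r : ℝ) * k) * (Matrix.trace M⁻¹ - 1 / c) := by
    have hJtr : Matrix.trace (JJ v) = v := by simp [JJ, Matrix.trace]
    rw [hX, Matrix.trace_add, Matrix.trace_smul, Matrix.trace_smul, hJtr, smul_eq_mul,
      smul_eq_mul]
    field_simp
    ring
  rw [hAinv, htrX]
  have hgt := trace_inv_gt hMs hc hm hq hM1 (by simpa using hv)
  have hpos : 0 < ((r : ℝ) * k) * (Matrix.trace M⁻¹ - 1 / c) :=
    mul_pos hrk (by linarith)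
  rw [lt_div_iff₀ hpos, ← mul_assoc]
  exact htr

end Pool.Agent.Lib.MP_b24dd2_co
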