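import Pool.Agent.Lib.MP_b24dd2_co.Switch

set_option autoImplicit false

namespace Pool.Agent.Lib.MP_b24dd2_co

/-- Number of `t < bk` with `t ≡ x mod v` and `⌊t/k⌋ = j`. -/
def cnt (v b k : ℕ) (x : Fin v) (j : Fin b) : ℕ :=
  ∑ t ∈ Finset.range (b * k), if t % v = x ∧ t / k = j then 1 else 0

lemma cnt_le_one {v b k : ℕ} (hkv : k ≤ v) (hk : 0 < k) (x : Fin v) (j : Fin b) :
    cnt v b k x j ≤ 1 := by
  unfold cnt
  rw [← Finset.card_filter, Finset.card_le_one]
  intro s hs t ht
  rw [Finset.mem_filter] at hs ht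
  obtain ⟨_, hs1, hs2⟩ := hs
  obtain ⟨_, ht1, ht2⟩ := ht
  have h1 : s / k = t / k := by rw [hs2, ht2]
  have h2 : s % v = t % v := by rw [hs1, ht1]
  have e1 := Nat.div_add_mod s k
  have e2 := Nat.div_add_mod t k
  have l1 := Nat.mod_lt s hk
  have l2 := Nat.mod_lt t hk
  rw [h1] at e1
  rcases le_total s t with h | h
  · have h3 : (t - s) % v = 0 := Nat.sub_mod_eq_zero_of_mod_eq h2.symm
    have h4 : t - s < v := by omega
    rw [Nat.mod_eq_of_lt h4] at h3
    omega
  · have h3 : (s - t) % v = 0 := Nat.sub_mod_eq_zero_of_mod_eq h2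
    have h4 : s - t < v := by omega
    rw [Nat.mod_eq_of_lt h4] at h3
    omega

lemma cnt_row {v b k r : ℕ} (hv : 0 < v) (hk : 0 < k) (h : v * r = b * k) (x : Fin v) :
    ∑ j, cnt v b k x j = r := by
  unfold cnt
  rw [Finset.sum_comm]
  have h1 : ∀ t ∈ Finset.range (b * k), ∑ j : Fin b, (if t % v = x ∧ t / k = j then 1 else 0) =
      if t ≡ x [MOD v] then 1 else 0 := by
    intro t ht
    rw [Finset.mem_range] at ht
    have h2 : t / k < b := by rwa [Nat.div_lt_iff_lt_mul hk]
    have h3 : (t ≡ x [MOD v]) ↔ t % v = x := by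
      unfold Nat.ModEq
      rw [Nat.mod_eq_of_lt x.2]
    by_cases h4 : t % v = x
    · rw [if_pos (h3.2 h4), Finset.sum_eq_single (⟨t / k, h2⟩ : Fin b)]
      · simp [h4]
      · intro j _ hj
        rw [if_neg]
        rintro ⟨_, h5⟩
        exact hj (Fin.ext h5.symm)
      · intro h5
        exact absurd (Finset.mem_univ _) h5
    · rw [if_neg (fun h5 => h4 (h3.1 h5))]
      refine Finset.sum_eq_zero (fun j _ => ?_)
      rw [if_neg (fun h5 => h4 h5.1)]
  rw [Finset.sum_congr rfl h1, ← Finset.card_filter, ← Nat.count_eq_card_filter_range,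
    Nat.count_modEq_card _ hv, ← h]
  simp [Nat.mul_div_cancel_left _ hv]

lemma cnt_col {v b k : ℕ} (hv : 0 < v) (hk : 0 < k) (j : Fin b) :
    ∑ x, cnt v b k x j = k := by
  unfold cnt
  rw [Finset.sum_comm]
  have h1 : ∀ t ∈ Finset.range (b * k), ∑ x : Fin v, (if t % v = x ∧ t / k = j then 1 else 0) =
      if t / k = j then 1 else 0 := by
    intro t _
    by_cases h4 : t / k = j
    · rw [if_pos h4, Finset.sum_eq_single (⟨t % v, Nat.mod_lt t hv⟩ : Fin v)]
      · simp [h4]
      · intro x _ hx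
        rw [if_neg]
        rintro ⟨h5, _⟩
        exact hx (Fin.ext h5.symm)
      · intro h5
        exact absurd (Finset.mem_univ _) h5
    · rw [if_neg h4]
      refine Finset.sum_eq_zero (fun x _ => ?_)
      rw [if_neg (fun h5 => h4 h5.2)]
  rw [Finset.sum_congr rfl h1, ← Finset.card_filter]
  have h2 : (Finset.range (b * k)).filter (fun t => t / k = j) =
      Finset.Ico (j * k) (j * k + k) := by
    ext t
    rw [Finset.mem_filter, Finset.mem_range, Finset.mem_Ico]
    constructor
    · rintro ⟨_, h3⟩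
      have e1 := Nat.div_add_mod t k
      have l1 := Nat.mod_lt t hk
      rw [h3] at e1
      rw [mul_comm k] at e1
      omega
    · rintro ⟨h3, h4⟩
      have h5 : t / k = j := by
        apply Nat.div_eq_of_lt_le
        · exact h3
        · rw [Nat.succ_mul]; exact h4
      refine ⟨?_, h5⟩
      have h6 : (j : ℕ) + 1 ≤ b := j.2
      calc t < j * k + k := h4
        _ = (j + 1) * k := by ring
        _ ≤ b * k := Nat.mul_le_mul_right k h6
  rw [h2]
  simp

/-- A Boolean matrix with constant row and column sums. -/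
lemma exists_valid {v b k r : ℕ} (hv : 0 < v) (hk : 0 < k) (hkv : k ≤ v) (h : v * r = b * k) :
    ∃ B : Fin v → Fin b → Bool, Valid k r B := by
  refine ⟨fun x j => decide (cnt v b k x j = 1), ?_, ?_⟩
  · intro x
    have h1 : ∀ j, ent (fun x j => decide (cnt v b k x j = 1)) x j = (cnt v b k x j : ℝ) := by
      intro j
      unfold ent
      have := cnt_le_one hkv hk x j
      by_cases h2 : cnt v b k x j = 1
      · simp [h2]
      · have h3 : cnt v b k x j = 0 := by omega
        simp [h3]
    simp only [h1]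
    rw [← Nat.cast_sum, cnt_row hv hk h]
  · intro j
    have h1 : ∀ x, ent (fun x j => decide (cnt v b k x j = 1)) x j = (cnt v b k x j : ℝ) := by
      intro x
      unfold ent
      have := cnt_le_one hkv hk x j
      by_cases h2 : cnt v b k x j = 1
      · simp [h2]
      · have h3 : cnt v b k x j = 0 := by omega
        simp [h3]
    simp only [h1]
    rw [← Nat.cast_sum, cnt_col hv hk]

lemma exists_minimiser {v b k r : ℕ} (hv : 0 < v) (hk : 0 < k) (hkv : k ≤ v)
    (h : v * r = b * k) :
    ∃ B : Fin v → Fin b → Bool, Valid k r B ∧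
      ∀ B' : Fin v → Fin b → Bool, Valid k r B' → pot B ≤ pot B' := by
  classical
  obtain ⟨B0, hB0⟩ := exists_valid hv hk hkv h
  obtain ⟨B, hB, hmin⟩ := Finset.exists_min_image
    (Finset.univ.filter (fun B : Fin v → Fin b → Bool => Valid k r B)) pot
    ⟨B0, by simp [hB0]⟩
  rw [Finset.mem_filter] at hB
  refine ⟨B, hB.2, fun B' hB' => hmin B' ?_⟩
  rw [Finset.mem_filter]
  exact ⟨Finset.mem_univ _, hB'⟩

end Pool.Agent.Lib.MP_b24dd2_co
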