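import Pool.Agent.Lib.MP_b24dd2_co.Convert

set_option autoImplicit false
open scoped Matrix

namespace Pool.Agent.Lib.MP_b24dd2_co

variable {v b : ℕ}

/-- If `∑ n_j = r` and `∑ n_j² = r + 2` then exactly one `n_j` is `2`, the others are `≤ 1`. -/
lemma exists_double {n : Fin b → ℕ} {r : ℕ} (h1 : ∑ j, n j = r)
    (h2 : ∑ j, n j * n j = r + 2) :
    ∃ j, n j = 2 ∧ ∀ j', j' ≠ j → n j' ≤ 1 := by
  have h3 : ∑ j, n j * (n j - 1) = 2 := by
    have h4 : ∀ j, n j * n j = n j * (n j - 1) + n j := by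
      intro j
      rcases Nat.eq_zero_or_pos (n j) with h | h
      · rw [h]
      · obtain ⟨t, ht⟩ : ∃ t, n j = t + 1 := ⟨n j - 1, by omega⟩
        rw [ht]; simp; ring
    rw [Finset.sum_congr rfl (fun j _ => h4 j), Finset.sum_add_distrib, h1] at h2
    omega
  obtain ⟨j, hj⟩ : ∃ j, n j * (n j - 1) ≠ 0 := by
    by_contra hcon
    push Not at hcon
    rw [Finset.sum_eq_zero (fun j _ => hcon j)] at h3
    omega
  have h5 : n j * (n j - 1) + ∑ j' ∈ Finset.univ.erase j, n j' * (n j' - 1) = 2 := by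
    rw [Finset.add_sum_erase _ (fun j => n j * (n j - 1)) (Finset.mem_univ j)]
    exact h3
  have hj2 : 2 ≤ n j := by
    by_contra h
    have : n j = 0 ∨ n j = 1 := by omega
    rcases this with h | h <;> simp [h] at hj
  have hj3 : n j ≤ 2 := by
    by_contra h
    have h6 : 3 * 2 ≤ n j * (n j - 1) := Nat.mul_le_mul (by omega) (by omega)
    omega
  have hj4 : n j = 2 := by omega
  refine ⟨j, hj4, fun j' hj' => ?_⟩
  have h7 : n j' * (n j' - 1) ≤ ∑ j' ∈ Finset.univ.erase j, n j' * (n j' - 1) :=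
    Finset.single_le_sum (f := fun j' => n j' * (n j' - 1)) (fun _ _ => Nat.zero_le _)
      (Finset.mem_erase.2 ⟨hj', Finset.mem_univ j'⟩)
  rw [hj4] at h5
  by_contra h8
  have h9 : 2 * 1 ≤ n j' * (n j' - 1) := Nat.mul_le_mul (by omega) (by omega)
  omega

/-- Data of a non-binary balanced design with `Γ = 2`. -/
structure DData (k r β : ℕ) (n : Fin v → Fin b → ℕ) (f : Fin v → Fin b) : Prop where
  row : ∀ i, ∑ j, n i j = r
  col : ∀ j, ∑ i, n i j = k
  off : ∀ a d, a ≠ d → ∑ j, n a j * n d j = β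
  two : ∀ i, n i (f i) = 2
  one : ∀ i j, j ≠ f i → n i j ≤ 1
  inj : Function.Injective f

lemma exists_ddata {k r β : ℕ} {n : Fin v → Fin b → ℕ} (h1 : ∀ i, ∑ j, n i j = r)
    (h2 : ∀ j, ∑ i, n i j = k) (h3 : ∀ a d, a ≠ d → ∑ j, n a j * n d j = β)
    (h4 : ∀ a, ∑ j, n a j * n a j = r + 2) (hβ : β ≤ 3) :
    ∃ f : Fin v → Fin b, DData k r β n f := by
  choose f hf1 hf2 using fun i => exists_double (h1 i) (h4 i)
  refine ⟨f, h1, h2, h3, hf1, fun i j hj => hf2 i j hj, fun a d had => ?_⟩
  by_contra hne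
  have h5 := h3 a d hne
  have h6 : n a (f a) * n d (f a) ≤ ∑ j, n a j * n d j :=
    Finset.single_le_sum (f := fun j => n a j * n d j) (fun _ _ => Nat.zero_le _)
      (Finset.mem_univ (f a))
  have h7 : n d (f a) = 2 := by rw [had]; exact hf1 d
  rw [hf1 a, h7] at h6
  omega

namespace DData

variable {k r β : ℕ} {n : Fin v → Fin b → ℕ} {f : Fin v → Fin b}

lemma le_one (h : DData k r β n f) {a i : Fin v} (hai : a ≠ i) : n a (f i) ≤ 1 :=
  h.one a (f i) (fun h1 => hai (h.inj h1).symm)

/-- Hall's condition: a permutation moving the duplicates to blocks not containing them. -/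
lemma exists_perm (h : DData k r β n f) (hβ : β ≤ 3) (hk : 2 ≤ k) (hv : 2 ≤ v)
    (hkv : β + k ≤ v + 1) (hkv' : k < v) :
    ∃ σ : Equiv.Perm (Fin v), ∀ i, n (σ i) (f i) = 0 := by
  classical
  let t : Fin v → Finset (Fin v) := fun i => Finset.univ.filter (fun x => n x (f i) = 0)
  have hall : ∀ s : Finset (Fin v), s.card ≤ (s.biUnion t).card := by
    intro s
    by_contra hcon
    push Not at hcon
    set U := s.biUnion t with hU
    set C := Finset.univ \ U with hC
    have hCcard : C.card + U.card = v := by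
      have := Finset.card_sdiff_add_card_eq_card (Finset.subset_univ U)
      simpa using this
    have hCmem : ∀ x ∈ C, ∀ i ∈ s, 1 ≤ n x (f i) := by
      intro x hx i hi
      rw [hC, Finset.mem_sdiff] at hx
      by_contra h0
      have h1 : n x (f i) = 0 := by omega
      apply hx.2
      rw [hU, Finset.mem_biUnion]
      exact ⟨i, hi, by simp [t, h1]⟩
    have hs_pos : 0 < s.card := by omega
    obtain ⟨i0, hi0⟩ := Finset.card_pos.1 hs_pos
    have hscard : s.card ≤ v := by simpa using Finset.card_le_univ s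
    -- the support of the column `f i0` has `k - 1` elements
    have hCk : C.card + 1 ≤ k := by
      rw [← h.col (f i0)]
      have h1 : ∑ x ∈ C, 1 ≤ ∑ x ∈ C, (n x (f i0) - (if x = i0 then 1 else 0)) := by
        refine Finset.sum_le_sum (fun x hx => ?_)
        by_cases hx0 : x = i0
        · subst hx0
          rw [h.two]; simp
        · simp only [hx0, if_false]
          have := hCmem x hx i0 hi0
          omega
      have h2 : ∑ x ∈ C, (n x (f i0) - (if x = i0 then 1 else 0)) ≤
          ∑ x, (n x (f i0) - (if x = i0 then 1 else 0)) :=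
        Finset.sum_le_sum_of_subset (Finset.subset_univ C)
      have h3 : ∑ x, (n x (f i0) - (if x = i0 then 1 else 0)) + 1 = ∑ x, n x (f i0) := by
        have h4 : ∀ x, n x (f i0) = (n x (f i0) - (if x = i0 then 1 else 0)) +
            (if x = i0 then 1 else 0) := by
          intro x
          by_cases hx0 : x = i0
          · subst hx0
            rw [h.two]; simp
          · simp [hx0]
        conv_rhs => rw [Finset.sum_congr rfl (fun x _ => h4 x)]
        rw [Finset.sum_add_distrib]
        simp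
      simp only [Finset.sum_const, smul_eq_mul, mul_one] at h1
      omega
    rcases Nat.lt_or_ge C.card 2 with hC2 | hC2
    · -- exactly one exceptional treatment
      have hs : s = Finset.univ := by
        rw [← Finset.card_eq_iff_eq_univ]
        simp
        omega
      have hC1 : C.card = 1 := by
        have : s.card = v := by rw [hs]; simp
        omega
      obtain ⟨x, hx⟩ := Finset.card_eq_one.1 hC1
      have hxC : x ∈ C := by rw [hx]; simp
      have hx1 : ∀ i, 1 ≤ n x (f i) := fun i => hCmem x hxC i (by rw [hs]; simp)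
      rcases Nat.lt_or_ge k 3 with hk3 | hk3
      · -- k = 2
        obtain ⟨i, hi⟩ : ∃ i : Fin v, i ≠ x := by
          have : Nontrivial (Fin v) := Fin.nontrivial_iff_two_le.2 hv
          exact exists_ne x
        have h1 : n i (f i) + n x (f i) ≤ ∑ y, n y (f i) := by
          rw [← Finset.sum_pair (f := fun y => n y (f i)) hi]
          exact Finset.sum_le_sum_of_subset (Finset.subset_univ _)
        rw [h.col, h.two] at h1
        have := hx1 i
        omega
      · obtain ⟨y, hyx, hy⟩ : ∃ y, y ≠ x ∧ 1 ≤ n y (f x) := by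
          by_contra hcon2
          push Not at hcon2
          have h1 : ∑ y, n y (f x) = n x (f x) := by
            refine Finset.sum_eq_single x (fun y _ hy => ?_) (fun h0 => absurd (Finset.mem_univ _) h0)
            have := hcon2 y hy
            omega
          rw [h.col, h.two] at h1
          omega
        have h1 := h.off x y hyx.symm
        have hne : f x ≠ f y := fun h0 => hyx (h.inj h0).symm
        have h2 : n x (f x) * n y (f x) + n x (f y) * n y (f y) ≤ ∑ j, n x j * n y j := by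
          rw [← Finset.sum_pair (f := fun j => n x j * n y j) hne]
          exact Finset.sum_le_sum_of_subset (Finset.subset_univ _)
        rw [h1, h.two, h.two] at h2
        have h3 := hx1 y
        omega
    · -- two exceptional treatments
      obtain ⟨x, hx, y, hy, hxy⟩ := Finset.one_lt_card.1 hC2
      have h1 := h.off x y hxy
      have h2 : s.card ≤ ∑ j, n x j * n y j := by
        calc s.card = ∑ i ∈ s, 1 := by simp
          _ ≤ ∑ i ∈ s, n x (f i) * n y (f i) := by
              refine Finset.sum_le_sum (fun i hi => ?_)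
              exact Nat.mul_pos (hCmem x hx i hi) (hCmem y hy i hi)
          _ = ∑ j ∈ s.image f, n x j * n y j := by
              rw [Finset.sum_image (fun a _ d _ had => h.inj had)]
          _ ≤ ∑ j, n x j * n y j := Finset.sum_le_sum_of_subset (Finset.subset_univ _)
      omega
  obtain ⟨π, hπ, hπt⟩ := (Finset.all_card_le_biUnion_card_iff_exists_injective t).1 hall
  refine ⟨Equiv.ofBijective π (Finite.injective_iff_bijective.1 hπ), fun i => ?_⟩
  have := hπt i
  simp only [t, Finset.mem_filter, Finset.mem_univ, true_and] at this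
  exact this

/-- The modified binary matrix. -/
def newMat (n : Fin v → Fin b → ℕ) (f : Fin v → Fin b) (σ : Equiv.Perm (Fin v)) :
    Matrix (Fin v) (Fin b) ℕ :=
  fun x j => if j = f x then 1 else if j = f (σ.symm x) then 1 else n x j

/-- The change of the incidence matrix. -/
def chg (f : Fin v → Fin b) (σ : Equiv.Perm (Fin v)) (x : Fin v) (j : Fin b) : ℝ :=
  (if j = f (σ.symm x) then (1 : ℝ) else 0) - (if j = f x then 1 else 0)

lemma perm_ne (h : DData k r β n f) {σ : Equiv.Perm (Fin v)} (hσ : ∀ i, n (σ i) (f i) = 0)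
    (x : Fin v) : σ.symm x ≠ x := by
  intro h0
  have h1 := hσ (σ.symm x)
  rw [Equiv.apply_symm_apply, h0, h.two] at h1
  omega

lemma newMat_cast (h : DData k r β n f) {σ : Equiv.Perm (Fin v)}
    (hσ : ∀ i, n (σ i) (f i) = 0) (x : Fin v) (j : Fin b) :
    ((newMat n f σ x j : ℕ) : ℝ) = n x j + chg f σ x j := by
  have hne : f x ≠ f (σ.symm x) := fun h0 => h.perm_ne hσ x (h.inj h0).symm
  unfold newMat chg
  by_cases h1 : j = f x
  · subst h1
    rw [if_pos rfl, if_neg hne, if_pos rfl, h.two]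
    norm_num
  · rw [if_neg h1]
    by_cases h2 : j = f (σ.symm x)
    · subst h2
      have h3 := hσ (σ.symm x)
      rw [Equiv.apply_symm_apply] at h3
      rw [if_pos rfl, if_pos rfl, if_neg h1, h3]
      norm_num
    · rw [if_neg h2, if_neg h2, if_neg h1]
      ring

lemma newMat_le_one (h : DData k r β n f) (σ : Equiv.Perm (Fin v)) (x : Fin v) (j : Fin b) :
    newMat n f σ x j ≤ 1 := by
  unfold newMat
  split
  · exact le_refl _
  · rename_i h1
    split
    · exact le_refl _
    · exact h.one x j h1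

lemma newMat_row (h : DData k r β n f) {σ : Equiv.Perm (Fin v)}
    (hσ : ∀ i, n (σ i) (f i) = 0) (x : Fin v) : ∑ j, newMat n f σ x j = r := by
  have : ((∑ j, newMat n f σ x j : ℕ) : ℝ) = r := by
    rw [Nat.cast_sum]
    simp only [h.newMat_cast hσ, Finset.sum_add_distrib, chg, Finset.sum_sub_distrib,
      Finset.sum_ite_eq', Finset.mem_univ, if_true, sub_self, add_zero]
    rw [← Nat.cast_sum, h.row]
  exact_mod_cast this

lemma newMat_col (h : DData k r β n f) {σ : Equiv.Perm (Fin v)}
    (hσ : ∀ i, n (σ i) (f i) = 0) (j : Fin b) : ∑ x, newMat n f σ x j = k := by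
  have : ((∑ x, newMat n f σ x j : ℕ) : ℝ) = k := by
    rw [Nat.cast_sum]
    simp only [h.newMat_cast hσ, Finset.sum_add_distrib, chg, Finset.sum_sub_distrib]
    rw [← Nat.cast_sum, h.col]
    have h1 : ∑ x, (if j = f (σ.symm x) then (1 : ℝ) else 0) =
        ∑ x, (if j = f x then (1 : ℝ) else 0) :=
      Equiv.sum_comp σ.symm (fun x => if j = f x then (1 : ℝ) else 0)
    rw [h1]; ring
  exact_mod_cast this

lemma sum_mul_chg (f : Fin v → Fin b) (σ : Equiv.Perm (Fin v)) (x : Fin v) (g : Fin b → ℝ) :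
    ∑ j, g j * chg f σ x j = g (f (σ.symm x)) - g (f x) := by
  simp only [chg, mul_sub, mul_ite, mul_one, mul_zero, Finset.sum_sub_distrib,
    Finset.sum_ite_eq', Finset.mem_univ, if_true]

/-- `y a d`, a number which is `0` or `1`. -/
def yy (n : Fin v → Fin b → ℕ) (f : Fin v → Fin b) (σ : Equiv.Perm (Fin v)) (a d : Fin v) : ℝ :=
  n a (f (σ.symm d)) - (if σ.symm d = a then 1 else 0)

lemma gram_newMat (h : DData k r β n f) {σ : Equiv.Perm (Fin v)}
    (hσ : ∀ i, n (σ i) (f i) = 0) {a d : Fin v} (had : a ≠ d) :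
    gram (newMat n f σ) a d = β + (yy n f σ a d - n a (f d)) + (yy n f σ d a - n d (f a)) := by
  rw [gram_apply]
  have h1 : ∀ j, ((newMat n f σ a j : ℕ) : ℝ) * ((newMat n f σ d j : ℕ) : ℝ) =
      (n a j : ℝ) * n d j + (n a j : ℝ) * chg f σ d j + (n d j : ℝ) * chg f σ a j +
        chg f σ a j * chg f σ d j := by
    intro j
    rw [h.newMat_cast hσ, h.newMat_cast hσ]; ring
  simp only [h1, Finset.sum_add_distrib, sum_mul_chg]
  have h2 : ∑ j, (n a j : ℝ) * n d j = β := by
    rw [← h.off a d had]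
    push_cast
    rfl
  rw [h2]
  have e1 : chg f σ a (f (σ.symm d)) = - (if σ.symm d = a then 1 else 0) := by
    unfold chg
    have h3 : f (σ.symm d) ≠ f (σ.symm a) := fun h0 => had (σ.symm.injective (h.inj h0)).symm
    rw [if_neg h3]
    by_cases h4 : σ.symm d = a
    · rw [if_pos (congrArg f h4), if_pos h4]; ring
    · rw [if_neg (fun h0 => h4 (h.inj h0)), if_neg h4]; ring
  have e2 : chg f σ a (f d) = (if σ.symm a = d then 1 else 0) := by
    unfold chg
    have h3 : f d ≠ f a := fun h0 => had (h.inj h0).symm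
    rw [if_neg h3]
    by_cases h4 : σ.symm a = d
    · rw [if_pos (congrArg f h4).symm, if_pos h4]; ring
    · rw [if_neg (fun h0 => h4 (h.inj h0).symm), if_neg h4]; ring
  rw [e1, e2]
  unfold yy
  ring

lemma yy_bounds (h : DData k r β n f) {σ : Equiv.Perm (Fin v)}
    (a d : Fin v) : 0 ≤ yy n f σ a d ∧ yy n f σ a d ≤ 1 := by
  unfold yy
  by_cases h1 : σ.symm d = a
  · rw [if_pos h1, ← h1, h.two]
    norm_num
  · rw [if_neg h1, sub_zero]
    have h2 := h.le_one (Ne.symm h1)
    exact ⟨Nat.cast_nonneg _, by exact_mod_cast h2⟩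

/-- The bound for the sum of squares of the deviations. -/
lemma frob_newMat (h : DData k r β n f) {σ : Equiv.Perm (Fin v)}
    (hσ : ∀ i, n (σ i) (f i) = 0) (hrel : r * k = r + 2 + (v - 1) * β) (hv : 2 ≤ v) :
    frob (dev (newMat n f σ) k r ((v : ℝ) * β)) ≤ 8 * v * ((k : ℝ) - 1) ∧
      Matrix.trace (dev (newMat n f σ) k r ((v : ℝ) * β)) = 2 * v := by
  have hv0 : (0 : ℝ) < v := by
    have : 0 < v := by omega
    exact_mod_cast this
  have hrelR : (r : ℝ) * k = r + 2 + (v - 1) * β := by
    have h7 : ((v - 1 : ℕ) : ℝ) = (v : ℝ) - 1 := by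
      rw [Nat.cast_sub (by omega)]; simp
    rw [← h7]
    exact_mod_cast hrel
  have hcv : (v : ℝ) * β / v = β := by field_simp
  have hdiag : ∀ a, dev (newMat n f σ) k r ((v : ℝ) * β) a a = 2 := by
    intro a
    rw [dev_apply_diag, hcv, gram_apply]
    have h1 : ∑ j, ((newMat n f σ a j : ℕ) : ℝ) * ((newMat n f σ a j : ℕ) : ℝ) = r := by
      rw [← h.newMat_row hσ a, Nat.cast_sum]
      refine Finset.sum_congr rfl (fun j _ => ?_)
      have := h.newMat_le_one σ a j
      interval_cases (newMat n f σ a j) <;> simp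
    rw [h1, hrelR]; ring
  refine ⟨?_, ?_⟩
  swap
  · rw [Matrix.trace]
    simp only [Matrix.diag_apply, hdiag]
    simp
    ring
  have hoff : ∀ a d, a ≠ d → dev (newMat n f σ) k r ((v : ℝ) * β) a d ^ 2 ≤
      2 * (yy n f σ a d + n a (f d)) + 2 * (yy n f σ d a + n d (f a)) := by
    intro a d had
    rw [dev_apply_ne _ _ _ _ had, hcv, h.gram_newMat hσ had]
    obtain ⟨p1, p2⟩ := h.yy_bounds (σ := σ) a d
    obtain ⟨q1, q2⟩ := h.yy_bounds (σ := σ) d a
    have s1 : (0 : ℝ) ≤ n a (f d) := Nat.cast_nonneg _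
    have s2 : (n a (f d) : ℝ) ≤ 1 := by exact_mod_cast h.le_one had
    have t1 : (0 : ℝ) ≤ n d (f a) := Nat.cast_nonneg _
    have t2 : (n d (f a) : ℝ) ≤ 1 := by exact_mod_cast h.le_one had.symm
    have key : ∀ x y : ℝ, 0 ≤ x → x ≤ 1 → 0 ≤ y → y ≤ 1 → (x - y) ^ 2 ≤ x + y := by
      intro x y hx0 hx1 hy0 hy1
      nlinarith
    have k1 := key _ _ p1 p2 s1 s2
    have k2 := key _ _ q1 q2 t1 t2
    nlinarith [sq_nonneg ((yy n f σ a d - n a (f d)) - (yy n f σ d a - n d (f a)))]
  -- sums of the bounds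
  have hsum : ∀ d, ∑ a, (if a = d then 0 else (yy n f σ a d + n a (f d))) = 2 * (k : ℝ) - 3 := by
    intro d
    have h1 : ∀ a, (if a = d then 0 else (yy n f σ a d + n a (f d))) =
        (yy n f σ a d + n a (f d)) - (if a = d then (yy n f σ d d + n d (f d)) else 0) := by
      intro a
      by_cases had : a = d
      · subst had; simp
      · simp [had]
    simp only [h1, Finset.sum_sub_distrib, Finset.sum_add_distrib, Finset.sum_ite_eq',
      Finset.mem_univ, if_true]
    have h2 : ∑ a, yy n f σ a d = k - 1 := by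
      unfold yy
      rw [Finset.sum_sub_distrib, ← Nat.cast_sum, h.col]
      simp
    have h3 : ∑ a, (n a (f d) : ℝ) = k := by
      rw [← Nat.cast_sum, h.col]
    have h4 : yy n f σ d d = 0 := by
      unfold yy
      have h5 := hσ (σ.symm d)
      rw [Equiv.apply_symm_apply] at h5
      rw [h5, if_neg (h.perm_ne hσ d)]
      simp
    rw [h2, h3, h4, h.two]
    push_cast
    ring
  have hle : frob (dev (newMat n f σ) k r ((v : ℝ) * β)) ≤
      ∑ a, ∑ d, ((if a = d then 4 else 0) +
        2 * (if a = d then 0 else (yy n f σ a d + n a (f d))) +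
        2 * (if d = a then 0 else (yy n f σ d a + n d (f a)))) := by
    unfold frob
    refine Finset.sum_le_sum (fun a _ => Finset.sum_le_sum (fun d _ => ?_))
    by_cases had : a = d
    · subst had
      rw [hdiag]
      simp
      norm_num
    · rw [if_neg had, if_neg had, if_neg (Ne.symm had), zero_add]
      exact hoff a d had
  refine hle.trans (le_of_eq ?_)
  simp only [Finset.sum_add_distrib, ← Finset.mul_sum, hsum]
  rw [Finset.sum_comm (f := fun a d => (if a = d then (0 : ℝ) else (yy n f σ a d + n a (f d))))]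
  simp only [hsum]
  simp
  ring

end DData

/-- The case `Γ = 2`, `β ≤ 3`. -/
theorem perm_case {k r β : ℕ} {n : Fin v → Fin b → ℕ} (h1 : ∀ i, ∑ j, n i j = r)
    (h2 : ∀ j, ∑ i, n i j = k) (h3 : ∀ a d, a ≠ d → ∑ j, n a j * n d j = β)
    (h4 : ∀ a, ∑ j, n a j * n a j = r + 2) (hβ : β ≤ 3) (hβ0 : 0 < β) (hk : 2 ≤ k)
    (hkv : β + k ≤ v + 1) (hkv' : k < v) (hr0 : 0 < r)
    (hrel : r * k = r + 2 + (v - 1) * β) {e : ℝ}
    (he : e * ((r : ℝ) * k) = v * β) {m : ℝ}
    (hm0 : 0 < m) (hmc : m ≤ v * β) (hm1 : 8 * v * ((k : ℝ) - 1) ≤ (v * β - m) ^ 2)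
    (hm2 : 4 * ((k : ℝ) - 1) < m) : Concl v b k r e := by
  obtain ⟨f, h⟩ := exists_ddata h1 h2 h3 h4 hβ
  have hv : 2 ≤ v := by omega
  obtain ⟨σ, hσ⟩ := h.exists_perm hβ hk hv hkv hkv'
  obtain ⟨hfr, htrace⟩ := h.frob_newMat hσ hrel hv
  have hv0 : (0 : ℝ) < v := by
    have : 0 < v := by omega
    exact_mod_cast this
  have hβR : (0 : ℝ) < β := by exact_mod_cast hβ0
  have hc0 : (0 : ℝ) < v * β := by positivity
  have hfr2 := hfr.trans hm1
  have htr := (trace_inv_le (dev_symm (DData.newMat n f σ) k r (v * β)) hm0 hmc hfr2).2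
  have hq := quad_lower (dev (DData.newMat n f σ) k r (v * β)) hmc hfr2
  refine ⟨DData.newMat n f σ, h.newMat_row hσ, h.newMat_col hσ, h.newMat_le_one σ, ?_⟩
  refine convert_bound (h.newMat_row hσ) (h.newMat_col hσ) hr0 (by omega) hv hc0 hm0 hq ?_
  rw [he]
  rw [htrace, Fintype.card_fin] at htr
  have h5 : frob (dev (DData.newMat n f σ) k r (v * β)) / ((v * β) ^ 2 * m) ≤
      8 * v * ((k : ℝ) - 1) / ((v * β) ^ 2 * m) :=
    div_le_div_of_nonneg_right hfr (by positivity)
  have h6 : Matrix.trace (((v : ℝ) * β) • (1 : Matrix (Fin v) (Fin v) ℝ) +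
      dev (DData.newMat n f σ) k r (v * β))⁻¹ ≤
      v / (v * β) - 2 * v / (v * β) ^ 2 + 8 * v * ((k : ℝ) - 1) / ((v * β) ^ 2 * m) := by
    linarith
  have h7 := mul_le_mul_of_nonneg_left h6 hc0.le
  have h8 : (v : ℝ) * β * (v / (v * β) - 2 * v / (v * β) ^ 2 +
      8 * v * ((k : ℝ) - 1) / ((v * β) ^ 2 * m)) =
      v - 2 / (β * m) * (m - 4 * ((k : ℝ) - 1)) := by
    field_simp
    ring
  rw [h8] at h7
  have h9 : 0 < 2 / (β * m) * (m - 4 * ((k : ℝ) - 1)) :=
    mul_pos (by positivity) (by linarith)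
  rw [mul_sub]
  have h10 : (v : ℝ) * β * (1 / (v * β)) = 1 := by field_simp
  rw [h10]
  linarith

end Pool.Agent.Lib.MP_b24dd2_co
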