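import Pool.Agent.Lib.MP_b24dd2_co.Generic
import Pool.Agent.Lib.MP_b24dd2_co.Perm
import Pool.Agent.Lib.MP_b24dd2_co.BetaOne

set_option autoImplicit false
open scoped Matrix

namespace Pool.Agent.Lib.MP_b24dd2_co

variable {v b : ℕ}

/-- Fisher's inequality for (non-binary) balanced designs. -/
lemma fisher {n : Matrix (Fin v) (Fin b) ℕ} {β s : ℕ}
    (h3 : ∀ a d, a ≠ d → ∑ j, n a j * n d j = β)
    (h4 : ∀ a, ∑ j, n a j * n a j = s) (hs : β < s) : v ≤ b := by
  by_contra hlt
  push Not at hlt
  -- a nonzero vector in the kernel of the transpose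
  let T : (Fin v → ℝ) →ₗ[ℝ] (Fin b → ℝ) :=
    Matrix.mulVecLin ((n.map (Nat.cast : ℕ → ℝ))ᵀ)
  have hker : LinearMap.ker T ≠ ⊥ := by
    apply LinearMap.ker_ne_bot_of_finrank_lt
    simpa using hlt
  obtain ⟨z, hz, hz0⟩ := (Submodule.ne_bot_iff _).1 hker
  have hz1 : ∀ j, ∑ x, (n x j : ℝ) * z x = 0 := by
    intro j
    have := congrFun (LinearMap.mem_ker.1 hz) j
    exact this
  have h5 : ∑ a, ∑ d, z a * z d * gram n a d = 0 := by
    simp only [gram_apply, Finset.mul_sum]
    rw [Finset.sum_congr rfl (fun a _ => Finset.sum_comm), Finset.sum_comm]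
    refine Finset.sum_eq_zero (fun j _ => ?_)
    have : ∀ a, ∑ d, z a * z d * ((n a j : ℝ) * (n d j : ℝ)) =
        (n a j : ℝ) * z a * ∑ d, (n d j : ℝ) * z d := by
      intro a
      rw [Finset.mul_sum]
      exact Finset.sum_congr rfl (fun d _ => by ring)
    simp only [this, hz1, mul_zero, Finset.sum_const_zero]
  have h6 : ∀ a d, gram n a d = (β : ℝ) + (if a = d then ((s : ℝ) - β) else 0) := by
    intro a d
    rw [gram_apply]
    by_cases had : a = d
    · subst had
      rw [if_pos rfl]
      have h7 : ((∑ j, n a j * n a j : ℕ) : ℝ) = (s : ℝ) := by rw [h4]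
      push_cast at h7
      rw [h7]; ring
    · rw [if_neg had]
      have h7 : ((∑ j, n a j * n d j : ℕ) : ℝ) = (β : ℝ) := by rw [h3 a d had]
      push_cast at h7
      rw [h7]; ring
  have h8 : ∑ a, ∑ d, z a * z d * gram n a d =
      β * (∑ a, z a) ^ 2 + ((s : ℝ) - β) * ∑ a, z a ^ 2 := by
    simp only [h6, mul_add, mul_ite, mul_zero, Finset.sum_add_distrib, Finset.sum_ite_eq,
      Finset.mem_univ, if_true]
    rw [sq, Finset.sum_mul_sum]
    simp only [Finset.mul_sum]
    congr 1
    · refine Finset.sum_congr rfl (fun a _ => Finset.sum_congr rfl (fun d _ => ?_))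
      ring
    · refine Finset.sum_congr rfl (fun a _ => ?_)
      ring
  rw [h5] at h8
  have h9 : (0 : ℝ) < (s : ℝ) - β := by
    have : (β : ℝ) < s := by exact_mod_cast hs
    linarith
  obtain ⟨a, ha⟩ : ∃ a, z a ≠ 0 := by
    by_contra hcon
    push Not at hcon
    exact hz0 (funext hcon)
  have h10 : 0 < ∑ a, z a ^ 2 :=
    Finset.sum_pos' (fun a _ => sq_nonneg _) ⟨a, Finset.mem_univ a, by positivity⟩
  have h11 : (0 : ℝ) ≤ β * (∑ a, z a) ^ 2 := by positivity
  have h12 := mul_pos h9 h10
  linarith

/-- The combinatorial form of the theorem. -/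
theorem main_comb {k r β Γ : ℕ} {n : Matrix (Fin v) (Fin b) ℕ} (hk : 2 ≤ k) (hkv : k < v)
    (h1 : ∀ i, ∑ j, n i j = r) (h2 : ∀ j, ∑ i, n i j = k)
    (h3 : ∀ a d, a ≠ d → ∑ j, n a j * n d j = β)
    (h4 : ∀ a, ∑ j, n a j * n a j = r + Γ) (hβ : 1 ≤ β) (hΓ : 2 ≤ Γ) (hΓe : Even Γ)
    (hrel : r * k = r + Γ + (v - 1) * β) (hr0 : 0 < r) {e : ℝ}
    (he : e * ((r : ℝ) * k) = v * β) : Concl v b k r e := by
  have hvr : v * r = b * k := by
    have e1 : ∑ i, ∑ j, n i j = v * r := by simp [h1]
    have e2 : ∑ j, ∑ i, n i j = b * k := by simp [h2]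
    rw [← e1, ← e2, Finset.sum_comm]
  have hvN : 3 ≤ v := by omega
  have hvR : (3 : ℝ) ≤ v := by exact_mod_cast hvN
  have hkR : (2 : ℝ) ≤ k := by exact_mod_cast hk
  have hkvR : (k : ℝ) + 1 ≤ v := by exact_mod_cast hkv
  have hΓR : (2 : ℝ) ≤ Γ := by exact_mod_cast hΓ
  have hβR : (1 : ℝ) ≤ β := by exact_mod_cast hβ
  have hrelR : (r : ℝ) * k = r + Γ + (v - 1) * β := by
    have h7 : ((v - 1 : ℕ) : ℝ) = (v : ℝ) - 1 := by
      rw [Nat.cast_sub (by omega)]; simp
    rw [← h7]
    exact_mod_cast hrel
  set c : ℝ := v * (r * ((k : ℝ) - 1)) / ((v : ℝ) - 1) with hc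
  have hv1 : (0 : ℝ) < (v : ℝ) - 1 := by linarith
  have hcdef : c * ((v : ℝ) - 1) = v * (r * ((k : ℝ) - 1)) := by
    rw [hc]; field_simp
  have hcdef2 : c * ((v : ℝ) - 1) = v * (((v : ℝ) - 1) * β + Γ) := by
    rw [hcdef]
    have : (r : ℝ) * (k - 1) = ((v : ℝ) - 1) * β + Γ := by linarith
    rw [this]
  -- c = v β + Γ v/(v-1) > v β + Γ
  have hcgt : (v : ℝ) * β + Γ < c := by
    have h5 : ((v : ℝ) * β + Γ) * ((v : ℝ) - 1) < c * ((v : ℝ) - 1) := by
      rw [hcdef2]
      nlinarith
    exact lt_of_mul_lt_mul_right h5 hv1.le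
  have hc0 : 0 < c := by nlinarith
  have hw0 : (0 : ℝ) < (v : ℝ) - k := by linarith
  have hwv : (v : ℝ) - k < v := by linarith
  have hv0 : (0 : ℝ) ≤ v := by linarith
  have hk1 : (0 : ℝ) ≤ (k : ℝ) - 1 := by linarith
  have hβw : (β : ℝ) * (v - k) ≤ v * β := by
    have := mul_nonneg (by linarith : (0 : ℝ) ≤ β) (by linarith : (0 : ℝ) ≤ k)
    linarith
  -- for `4 w ≤ c` one may take `m = c / 2`
  have key2 : 4 * ((v : ℝ) - k) ≤ c → c * ((v : ℝ) - k) ≤ (c - c / 2) ^ 2 := by
    intro h
    have := mul_nonneg hc0.le (by linarith : (0 : ℝ) ≤ c - 4 * ((v : ℝ) - k))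
    linarith
  rcases Nat.lt_or_ge β 4 with hβ4 | hβ4
  swap
  · -- β ≥ 4
    have hβ4R : (4 : ℝ) ≤ β := by exact_mod_cast hβ4
    have h5 : 4 * (v : ℝ) ≤ v * β := by
      have := mul_nonneg hv0 (by linarith : (0 : ℝ) ≤ β - 4)
      linarith
    refine generic hk hkv hvr hr0 hrel he (by omega) hcdef (m := c / 2) (by linarith)
      (by linarith) (key2 (by linarith)) ?_
    have := mul_nonneg (by linarith : (0 : ℝ) ≤ Γ - 2) hc0.le
    linarith
  · rcases Nat.lt_or_ge β 2 with hβ2 | hβ2
    · -- β = 1
      have hβ1 : β = 1 := by omega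
      subst hβ1
      exact beta_one h1 h2 h3 h4 hΓ hk hkv hr0 hrel he
    · have hβ2R : (2 : ℝ) ≤ β := by exact_mod_cast hβ2
      have h5 : 2 * (v : ℝ) ≤ v * β := by
        have := mul_nonneg hv0 (by linarith : (0 : ℝ) ≤ β - 2)
        linarith
      rcases Nat.lt_or_ge Γ 4 with hΓ4 | hΓ4
      swap
      · -- Γ ≥ 4
        have hΓ4R : (4 : ℝ) ≤ Γ := by exact_mod_cast hΓ4
        refine generic hk hkv hvr hr0 hrel he (by omega) hcdef (m := c / 4) (by linarith)
          (by linarith) ?_ ?_
        · have := mul_nonneg hc0.le (by linarith : (0 : ℝ) ≤ 9 * c - 16 * ((v : ℝ) - k))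
          linarith
        · have := mul_nonneg (by linarith : (0 : ℝ) ≤ Γ - 4) hc0.le
          linarith
      · have hΓ2 : Γ = 2 := by
          obtain ⟨t, ht⟩ := hΓe
          omega
        subst hΓ2
        have hβ23 : β = 2 ∨ β = 3 := by omega
        rcases hβ23 with hβ' | hβ'
        · -- β = 2
          subst hβ'
          have hcgt' : 2 * (v : ℝ) + 2 < c := by
            have := hcgt
            push_cast at this
            linarith
          have hrk2 : (r : ℝ) * (k - 1) = 2 * v := by
            have := hrelR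
            push_cast at this
            linarith
          rcases Nat.lt_or_ge r 11 with hr | hr
          · -- r ≤ 10
            have hfish : v ≤ b := fisher h3 h4 (by omega)
            have hrk : k ≤ r := by
              by_contra hcon
              push Not at hcon
              have h6 : v * r < b * k := by
                calc v * r < v * k := Nat.mul_lt_mul_of_pos_left hcon (by omega)
                  _ ≤ b * k := Nat.mul_le_mul_right k hfish
              omega
            have hk10 : (k : ℝ) ≤ 10 := by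
              have : k ≤ 10 := by omega
              exact_mod_cast this
            have hr10 : (r : ℝ) ≤ 10 := by
              have : r ≤ 10 := by omega
              exact_mod_cast this
            have hv5 : (v : ℝ) ≤ 5 * (k - 1) := by
              have := mul_le_mul_of_nonneg_right hr10 hk1
              linarith
            have h7 : 2626 / 1000 * ((v : ℝ) - k) ≤ c := by linarith
            refine generic hk hkv hvr hr0 hrel he (by omega) hcdef
              (m := 201 / 200 * ((v : ℝ) - k)) (by linarith) (by linarith) ?_ ?_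
            · have h8 := mul_nonneg (by linarith : (0 : ℝ) ≤ c - 2626 / 1000 * ((v : ℝ) - k))
                (by linarith : (0 : ℝ) ≤ c - 384 / 1000 * ((v : ℝ) - k))
              have h9 := sq_nonneg ((v : ℝ) - k)
              nlinarith
            · push_cast
              linarith
          · -- r ≥ 11
            have hr11 : (11 : ℝ) ≤ r := by exact_mod_cast hr
            have hv55 : 11 * ((k : ℝ) - 1) ≤ 2 * v := by
              have := mul_le_mul_of_nonneg_right hr11 hk1
              linarith
            refine perm_case h1 h2 h3 h4 (by omega) (by omega) hk (by omega) hkv hr0 hrel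
              he (m := 3 / 4 * v) (by linarith) ?_ ?_ ?_
            · push_cast; linarith
            · push_cast
              have h8 := mul_nonneg hv0 (by linarith : (0 : ℝ) ≤ 2 * v - 11 * ((k : ℝ) - 1))
              have h9 := sq_nonneg (v : ℝ)
              nlinarith
            · linarith
        · -- β = 3
          subst hβ'
          have hcgt' : 3 * (v : ℝ) + 2 < c := by
            have := hcgt
            push_cast at this
            linarith
          rcases Nat.lt_or_ge v (3 * k) with hv3 | hv3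
          · have hv3R : (v : ℝ) ≤ 3 * k := by exact_mod_cast hv3.le
            refine generic hk hkv hvr hr0 hrel he (by omega) hcdef
              (m := c / 2) (by linarith) (by linarith) (key2 (by linarith)) ?_
            push_cast
            linarith
          · have hv3R : 3 * (k : ℝ) ≤ v := by exact_mod_cast hv3
            refine perm_case h1 h2 h3 h4 (by omega) (by omega) hk (by omega) hkv hr0 hrel
              he (m := 4 / 3 * v) (by linarith) ?_ ?_ ?_
            · push_cast; linarith
            · push_cast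
              have h8 := mul_nonneg hv0 (by linarith : (0 : ℝ) ≤ v - 3 * (k : ℝ))
              have h9 := sq_nonneg (v : ℝ)
              nlinarith
            · linarith

end Pool.Agent.Lib.MP_b24dd2_co
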