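import Pool.Agent.Lib.MP_b24dd2_co.Convert
import Pool.Agent.Lib.MP_b24dd2_co.Exist

set_option autoImplicit false
open scoped Matrix

namespace Pool.Agent.Lib.MP_b24dd2_co

/-- The incidence matrix of a Boolean matrix. -/
def toMat {v b : ℕ} (B : Fin v → Fin b → Bool) : Matrix (Fin v) (Fin b) ℕ :=
  fun i j => if B i j then 1 else 0

lemma toMat_cast {v b : ℕ} (B : Fin v → Fin b → Bool) (i : Fin v) (j : Fin b) :
    ((toMat B i j : ℕ) : ℝ) = ent B i j := by
  unfold toMat ent; split <;> simp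

lemma gram_toMat {v b : ℕ} (B : Fin v → Fin b → Bool) (a c : Fin v) :
    gram (toMat B) a c = conc B a c := by
  rw [gram_apply]
  simp only [toMat_cast]
  rfl

theorem generic {v b k r β Γ : ℕ} (hk : 2 ≤ k) (hkv : k < v) (hvr : v * r = b * k)
    (hr0 : 0 < r) (hrel : r * k = r + Γ + (v - 1) * β) {e : ℝ}
    (he : e * ((r : ℝ) * k) = v * β) (hβ : 0 < β) {c m : ℝ}
    (hcdef : c * ((v : ℝ) - 1) = v * (r * ((k : ℝ) - 1)))
    (hm0 : 0 < m) (hmc : m ≤ c) (h1 : c * ((v : ℝ) - k) ≤ (c - m) ^ 2)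
    (h2 : (β : ℝ) * ((v : ℝ) - k) < Γ * m) : Concl v b k r e := by
  obtain ⟨B, hB, hmin⟩ := exists_minimiser (by omega) (by omega) hkv.le hvr
  have hc0 : 0 < c := lt_of_lt_of_le hm0 hmc
  have hv2 : (2 : ℝ) ≤ v := by
    have : 2 ≤ v := by omega
    exact_mod_cast this
  have hv0 : (0 : ℝ) < v := by linarith
  have hdb := deviation_bound hB (by omega) hmin hcdef
  have hrow : ∀ i, ∑ j, toMat B i j = r := by
    intro i
    have h3 := hB.1 i
    have h4 : ((∑ j, toMat B i j : ℕ) : ℝ) = r := by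
      rw [Nat.cast_sum, ← h3]
      exact Finset.sum_congr rfl (fun j _ => toMat_cast B i j)
    exact_mod_cast h4
  have hcol : ∀ j, ∑ i, toMat B i j = k := by
    intro j
    have h3 := hB.2 j
    have h4 : ((∑ i, toMat B i j : ℕ) : ℝ) = k := by
      rw [Nat.cast_sum, ← h3]
      exact Finset.sum_congr rfl (fun i _ => toMat_cast B i j)
    exact_mod_cast h4
  have hdiag : ∀ a, dev (toMat B) k r c a a = 0 := by
    intro a
    rw [dev_apply_diag, gram_toMat, conc_diag hB]
    field_simp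
    linarith
  have hfrob : frob (dev (toMat B) k r c) ≤ c * ((v : ℝ) - k) := by
    refine le_trans (le_of_eq ?_) hdb
    unfold frob
    refine Finset.sum_congr rfl (fun a _ => Finset.sum_congr rfl (fun d _ => ?_))
    by_cases h : d = a
    · subst h
      rw [hdiag, if_pos rfl]; ring
    · rw [if_neg h, dev_apply_ne _ _ _ _ (Ne.symm h), gram_toMat, conc_comm]
  have htrace : Matrix.trace (dev (toMat B) k r c) = 0 := by
    rw [Matrix.trace]
    exact Finset.sum_eq_zero (fun a _ => hdiag a)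
  have hfr2 := hfrob.trans h1
  have htr := (trace_inv_le (dev_symm (toMat B) k r c) hm0 hmc hfr2).2
  have hq := quad_lower (dev (toMat B) k r c) hmc hfr2
  refine ⟨toMat B, hrow, hcol, fun i j => by unfold toMat; split <;> simp, ?_⟩
  refine convert_bound hrow hcol hr0 (by omega) (by omega) hc0 hm0 hq ?_
  rw [he]
  rw [htrace, zero_div, sub_zero, Fintype.card_fin] at htr
  have h3 : frob (dev (toMat B) k r c) / (c ^ 2 * m) ≤ c * ((v : ℝ) - k) / (c ^ 2 * m) :=
    div_le_div_of_nonneg_right hfrob (by positivity)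
  have h4 : c * ((v : ℝ) - k) / (c ^ 2 * m) = ((v : ℝ) - k) / (c * m) := by
    field_simp
  have h5 : Matrix.trace (c • (1 : Matrix (Fin v) (Fin v) ℝ) + dev (toMat B) k r c)⁻¹ - 1 / c ≤
      ((v : ℝ) - 1) / c + ((v : ℝ) - k) / (c * m) := by
    have : ((v : ℝ) - 1) / c = v / c - 1 / c := by ring
    rw [this]
    linarith
  have hβ' : (0 : ℝ) < β := by exact_mod_cast hβ
  have h6 : (v : ℝ) * β * (Matrix.trace (c • (1 : Matrix (Fin v) (Fin v) ℝ) +
      dev (toMat B) k r c)⁻¹ - 1 / c) ≤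
      v * β * (((v : ℝ) - 1) / c + ((v : ℝ) - k) / (c * m)) :=
    mul_le_mul_of_nonneg_left h5 (by positivity)
  refine lt_of_le_of_lt h6 ?_
  -- numeric part
  have hrelR : (r : ℝ) * k = r + Γ + (v - 1) * β := by
    have h7 : ((v - 1 : ℕ) : ℝ) = (v : ℝ) - 1 := by
      rw [Nat.cast_sub (by omega)]; simp
    rw [← h7]
    exact_mod_cast hrel
  have hcv : c * ((v : ℝ) - 1) = v * (((v : ℝ) - 1) * β + Γ) := by
    rw [hcdef]
    have : (r : ℝ) * (k - 1) = ((v : ℝ) - 1) * β + Γ := by linarith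
    rw [this]
  have h8 : (v : ℝ) * β * (((v : ℝ) - 1) / c + ((v : ℝ) - k) / (c * m)) =
      ((v : ℝ) - 1) - v / (c * m) * (Γ * m - β * ((v : ℝ) - k)) := by
    have h9 : (v : ℝ) * β * ((v : ℝ) - 1) = c * ((v : ℝ) - 1) - v * Γ := by
      rw [hcv]; ring
    field_simp
    linear_combination m * h9
  rw [h8]
  have : 0 < v / (c * m) * (Γ * m - β * ((v : ℝ) - k)) :=
    mul_pos (by positivity) (by linarith)
  linarith

end Pool.Agent.Lib.MP_b24dd2_co
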