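import Mathlib

set_option autoImplicit false
open scoped Matrix

namespace Pool.Agent.Lib.MP_b24dd2_co

variable {n : Type*} [Fintype n] [DecidableEq n]

/-- Sum of the squares of the entries. -/
def frob (E : Matrix n n ℝ) : ℝ := ∑ a, ∑ b, E a b ^ 2

omit [DecidableEq n] in
lemma sq_mulVec_le (E : Matrix n n ℝ) (z : n → ℝ) :
    (E *ᵥ z) ⬝ᵥ (E *ᵥ z) ≤ frob E * (z ⬝ᵥ z) := by
  unfold frob
  rw [Finset.sum_mul]
  simp only [dotProduct, Matrix.mulVec]
  refine Finset.sum_le_sum (fun a _ => ?_)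
  have := Finset.sum_mul_sq_le_sq_mul_sq Finset.univ (fun b => E a b) z
  simpa [sq] using this

omit [DecidableEq n] in
lemma sq_dot_le (y z : n → ℝ) : (y ⬝ᵥ z) ^ 2 ≤ (y ⬝ᵥ y) * (z ⬝ᵥ z) := by
  have := Finset.sum_mul_sq_le_sq_mul_sq Finset.univ y z
  simpa [dotProduct, sq] using this

omit [DecidableEq n] in
lemma dot_self_nonneg' (z : n → ℝ) : 0 ≤ z ⬝ᵥ z :=
  Finset.sum_nonneg (fun i _ => mul_self_nonneg (z i))

omit [DecidableEq n] in
lemma abs_quad_le (E : Matrix n n ℝ) {s : ℝ} (hs : 0 ≤ s) (h : frob E ≤ s ^ 2) (z : n → ℝ) :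
    |z ⬝ᵥ (E *ᵥ z)| ≤ s * (z ⬝ᵥ z) := by
  have hz := dot_self_nonneg' z
  apply abs_le_of_sq_le_sq _ (mul_nonneg hs hz)
  calc (z ⬝ᵥ (E *ᵥ z)) ^ 2 ≤ (z ⬝ᵥ z) * ((E *ᵥ z) ⬝ᵥ (E *ᵥ z)) := sq_dot_le _ _
    _ ≤ (z ⬝ᵥ z) * (frob E * (z ⬝ᵥ z)) := mul_le_mul_of_nonneg_left (sq_mulVec_le E z) hz
    _ ≤ (z ⬝ᵥ z) * (s ^ 2 * (z ⬝ᵥ z)) :=
        mul_le_mul_of_nonneg_left (mul_le_mul_of_nonneg_right h hz) hz
    _ = (s * (z ⬝ᵥ z)) ^ 2 := by ring

/-- Lower bound for the quadratic form of `c + E`. -/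
lemma quad_lower (E : Matrix n n ℝ) {c m : ℝ} (hm : m ≤ c) (h : frob E ≤ (c - m) ^ 2)
    (z : n → ℝ) : m * (z ⬝ᵥ z) ≤ z ⬝ᵥ ((c • (1 : Matrix n n ℝ) + E) *ᵥ z) := by
  have h1 := abs_quad_le E (sub_nonneg.2 hm) h z
  have h2 := (abs_le.1 h1).1
  have h3 : z ⬝ᵥ ((c • (1 : Matrix n n ℝ) + E) *ᵥ z) = c * (z ⬝ᵥ z) + z ⬝ᵥ (E *ᵥ z) := by
    rw [Matrix.add_mulVec, dotProduct_add, Matrix.smul_mulVec, Matrix.one_mulVec,
      dotProduct_smul, smul_eq_mul]
  rw [h3]
  nlinarith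

lemma det_ne_zero_of_quad {M : Matrix n n ℝ} {m : ℝ} (hm : 0 < m)
    (h : ∀ z : n → ℝ, m * (z ⬝ᵥ z) ≤ z ⬝ᵥ (M *ᵥ z)) : M.det ≠ 0 := by
  intro hdet
  obtain ⟨z, hz0, hz⟩ := Matrix.exists_mulVec_eq_zero_iff.2 hdet
  have h1 := h z
  rw [hz, dotProduct_zero] at h1
  have h2 := dot_self_nonneg' z
  have h3 : z ⬝ᵥ z = 0 := le_antisymm (by nlinarith) h2
  exact hz0 (dotProduct_self_eq_zero.1 h3)

lemma inv_quad_le {M : Matrix n n ℝ} {m : ℝ} (hm : 0 < m)
    (h : ∀ z : n → ℝ, m * (z ⬝ᵥ z) ≤ z ⬝ᵥ (M *ᵥ z)) (z : n → ℝ) :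
    z ⬝ᵥ (M⁻¹ *ᵥ z) ≤ (z ⬝ᵥ z) / m := by
  have hdet := det_ne_zero_of_quad hm h
  set y := M⁻¹ *ᵥ z with hy
  have hMy : M *ᵥ y = z := by
    rw [hy, Matrix.mulVec_mulVec, Matrix.mul_nonsing_inv _ (isUnit_iff_ne_zero.2 hdet),
      Matrix.one_mulVec]
  have h1 := h y
  rw [hMy] at h1
  have h2 := sq_dot_le y z
  have h3 := dot_self_nonneg' z
  have h4 := dot_self_nonneg' y
  rw [dotProduct_comm z y]
  rw [le_div_iff₀ hm]
  by_cases h5 : y ⬝ᵥ z ≤ 0
  · nlinarith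
  · push Not at h5
    have h6 : m * (y ⬝ᵥ z) ^ 2 ≤ (y ⬝ᵥ z) * (z ⬝ᵥ z) := by
      calc m * (y ⬝ᵥ z) ^ 2 ≤ m * ((y ⬝ᵥ y) * (z ⬝ᵥ z)) := mul_le_mul_of_nonneg_left h2 hm.le
        _ = (m * (y ⬝ᵥ y)) * (z ⬝ᵥ z) := by ring
        _ ≤ (y ⬝ᵥ z) * (z ⬝ᵥ z) := mul_le_mul_of_nonneg_right h1 h3
    have h7 : (y ⬝ᵥ z) * (m * (y ⬝ᵥ z)) ≤ (y ⬝ᵥ z) * (z ⬝ᵥ z) := by nlinarith
    have h8 := le_of_mul_le_mul_left h7 h5
    linarith

lemma inv_expand {E : Matrix n n ℝ} {c : ℝ} (hc : c ≠ 0)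
    (hdet : (c • (1 : Matrix n n ℝ) + E).det ≠ 0) :
    (c • (1 : Matrix n n ℝ) + E)⁻¹ =
      (1 / c) • (1 : Matrix n n ℝ) - (1 / c ^ 2) • E +
        (1 / c ^ 2) • (E * (c • (1 : Matrix n n ℝ) + E)⁻¹ * E) := by
  set M := c • (1 : Matrix n n ℝ) + E with hM
  have hu : IsUnit M.det := isUnit_iff_ne_zero.2 hdet
  have hE : E = M - c • (1 : Matrix n n ℝ) := by rw [hM]; abel
  have h1 : M⁻¹ * M = 1 := Matrix.nonsing_inv_mul _ hu
  have h2 : M * M⁻¹ = 1 := Matrix.mul_nonsing_inv _ hu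
  have h3 : E * M⁻¹ * E = M - (2 * c) • (1 : Matrix n n ℝ) + (c ^ 2) • M⁻¹ := by
    rw [hE, sub_mul, h2, smul_mul_assoc, one_mul, sub_mul, one_mul, mul_sub, smul_mul_assoc,
      h1, smul_mul_assoc]
    rw [mul_smul_comm, mul_one, smul_smul, two_mul, add_smul, sq]
    abel
  rw [h3, smul_add, smul_sub, smul_smul, smul_smul]
  have hc2 : (1 / c ^ 2) * c ^ 2 = 1 := by field_simp
  have hc3 : 1 / c ^ 2 * (2 * c) = 2 * (1 / c) := by field_simp
  have hc4 : 1 / c ^ 2 * c = 1 / c := by field_simp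
  rw [hc2, hc3, one_smul]
  conv_rhs => rw [hE]
  rw [smul_sub, smul_smul, hc4, two_mul, add_smul]
  abel

/-- Upper bound for the trace of the inverse of `c + E`. -/
lemma trace_inv_le {E : Matrix n n ℝ} (hE : Eᵀ = E) {c m : ℝ} (hm0 : 0 < m) (hm : m ≤ c)
    (h : frob E ≤ (c - m) ^ 2) :
    (c • (1 : Matrix n n ℝ) + E).det ≠ 0 ∧
      Matrix.trace (c • (1 : Matrix n n ℝ) + E)⁻¹ ≤
        Fintype.card n / c - Matrix.trace E / c ^ 2 + frob E / (c ^ 2 * m) := by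
  have hq := quad_lower E hm h
  have hdet := det_ne_zero_of_quad hm0 hq
  refine ⟨hdet, ?_⟩
  have hc : 0 < c := lt_of_lt_of_le hm0 hm
  have htr : Matrix.trace (E * (c • (1 : Matrix n n ℝ) + E)⁻¹ * E) ≤ frob E / m := by
    unfold frob
    rw [Matrix.trace, Finset.sum_div]
    refine Finset.sum_le_sum (fun a _ => ?_)
    have h1 := inv_quad_le hm0 hq (fun b => E a b)
    have h2 : (E * (c • (1 : Matrix n n ℝ) + E)⁻¹ * E).diag a =
        (fun b => E a b) ⬝ᵥ ((c • (1 : Matrix n n ℝ) + E)⁻¹ *ᵥ (fun b => E a b)) := by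
      rw [Matrix.diag_apply, Matrix.mul_assoc, Matrix.mul_apply]
      simp only [dotProduct]
      refine Finset.sum_congr rfl (fun b _ => ?_)
      rw [Matrix.mul_apply]
      simp only [Matrix.mulVec, dotProduct]
      congr 1
      refine Finset.sum_congr rfl (fun d _ => ?_)
      have : E d a = E a d := congrFun (congrFun hE a) d
      rw [this]
    rw [h2]
    refine h1.trans (le_of_eq ?_)
    simp [dotProduct, sq]
  rw [inv_expand hc.ne' hdet, Matrix.trace_add, Matrix.trace_sub, Matrix.trace_smul,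
    Matrix.trace_smul, Matrix.trace_smul, Matrix.trace_one, smul_eq_mul, smul_eq_mul, smul_eq_mul]
  have h5 : 1 / c ^ 2 * Matrix.trace (E * (c • (1 : Matrix n n ℝ) + E)⁻¹ * E) ≤
      1 / c ^ 2 * (frob E / m) := mul_le_mul_of_nonneg_left htr (by positivity)
  have h6 : 1 / c ^ 2 * (frob E / m) = frob E / (c ^ 2 * m) := by
    field_simp
  have h7 : 1 / c * (Fintype.card n : ℝ) = Fintype.card n / c := by ring
  have h8 : 1 / c ^ 2 * Matrix.trace E = Matrix.trace E / c ^ 2 := by ring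
  linarith

omit [DecidableEq n] in
lemma frob_pos {E : Matrix n n ℝ} (h : E ≠ 0) : 0 < frob E := by
  obtain ⟨a, b, hab⟩ : ∃ a b, E a b ≠ 0 := by
    by_contra hcon
    push Not at hcon
    exact h (Matrix.ext hcon)
  unfold frob
  have h1 : 0 < ∑ b, E a b ^ 2 :=
    Finset.sum_pos' (fun b _ => sq_nonneg _) ⟨b, Finset.mem_univ b, by positivity⟩
  exact Finset.sum_pos' (fun a _ => Finset.sum_nonneg (fun b _ => sq_nonneg _))
    ⟨a, Finset.mem_univ a, h1⟩

/-- Strict upper bound for the trace of the inverse of `c + E` when `E` is positive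
semidefinite and nonzero. -/
lemma trace_inv_lt {E : Matrix n n ℝ} (hE : Eᵀ = E) {c : ℝ} (hc : 0 < c)
    (hpsd : ∀ z : n → ℝ, 0 ≤ z ⬝ᵥ (E *ᵥ z)) (hE0 : E ≠ 0) :
    (∀ z : n → ℝ, c * (z ⬝ᵥ z) ≤ z ⬝ᵥ ((c • (1 : Matrix n n ℝ) + E) *ᵥ z)) ∧
      Matrix.trace (c • (1 : Matrix n n ℝ) + E)⁻¹ < Fintype.card n / c := by
  have hq : ∀ z : n → ℝ, c * (z ⬝ᵥ z) ≤ z ⬝ᵥ ((c • (1 : Matrix n n ℝ) + E) *ᵥ z) := by
    intro z
    rw [Matrix.add_mulVec, dotProduct_add, Matrix.smul_mulVec, Matrix.one_mulVec,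
      dotProduct_smul, smul_eq_mul]
    linarith [hpsd z]
  refine ⟨hq, ?_⟩
  have hdet := det_ne_zero_of_quad hc hq
  set M := c • (1 : Matrix n n ℝ) + E with hM
  have hu : IsUnit M.det := isUnit_iff_ne_zero.2 hdet
  have hMs : Mᵀ = M := by rw [hM, Matrix.transpose_add, Matrix.transpose_smul,
    Matrix.transpose_one, hE]
  have hWs : (M⁻¹)ᵀ = M⁻¹ := by rw [Matrix.transpose_nonsing_inv, hMs]
  have h1 : M⁻¹ * M = 1 := Matrix.nonsing_inv_mul _ hu
  have h2 : M * M⁻¹ = 1 := Matrix.mul_nonsing_inv _ hu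
  set W := M⁻¹ with hW
  have hEM : E * M = c • E + E * E := by
    rw [hM, mul_add, mul_smul_comm, mul_one]
  have h3 : W * E = W * (c • E + E * E) * W := by
    rw [← hEM, Matrix.mul_assoc, Matrix.mul_assoc, h2, mul_one]
  have h4 : W = (1 / c) • (1 : Matrix n n ℝ) - (1 / c) • (W * E) := by
    have : c • W + W * E = 1 := by
      rw [← h1, hM, mul_add, mul_smul_comm, mul_one]
    rw [← this, smul_add, smul_smul]
    have : 1 / c * c = 1 := by field_simp
    rw [this, one_smul]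
    abel
  have h5 : Matrix.trace (W * E) = c * Matrix.trace (W * E * W) + Matrix.trace (W * (E * E) * W) := by
    conv_lhs => rw [h3, mul_add, add_mul, Matrix.trace_add, mul_smul_comm, smul_mul_assoc,
      Matrix.trace_smul, smul_eq_mul]
  have h6 : 0 ≤ Matrix.trace (W * E * W) := by
    rw [Matrix.trace]
    refine Finset.sum_nonneg (fun a _ => ?_)
    have := hpsd (fun b => W b a)
    refine this.trans (le_of_eq ?_)
    rw [Matrix.diag_apply, Matrix.mul_assoc, Matrix.mul_apply]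
    simp only [dotProduct]
    refine Finset.sum_congr rfl (fun b _ => ?_)
    have h7 : W b a = W a b := congrFun (congrFun hWs a) b
    rw [h7, Matrix.mul_apply]
    rfl
  have h7 : 0 < Matrix.trace (W * (E * E) * W) := by
    have hne : E * W ≠ 0 := by
      intro h0
      apply hE0
      have : E = E * W * M := by rw [Matrix.mul_assoc, h1, mul_one]
      rw [this, h0, zero_mul]
    refine (frob_pos hne).trans_le (le_of_eq ?_)
    have h8 : W * (E * E) * W = (E * W)ᵀ * (E * W) := by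
      rw [Matrix.transpose_mul, hWs, hE]
      simp only [Matrix.mul_assoc]
    rw [h8, Matrix.trace]
    simp only [Matrix.diag_apply, Matrix.mul_apply (M := (E * W)ᵀ), Matrix.transpose_apply]
    unfold frob
    rw [Finset.sum_comm]
    refine Finset.sum_congr rfl (fun a _ => Finset.sum_congr rfl (fun b _ => ?_))
    ring
  have h8 : Matrix.trace W = Fintype.card n / c - (1 / c) * Matrix.trace (W * E) := by
    conv_lhs => rw [h4]
    rw [Matrix.trace_sub, Matrix.trace_smul, Matrix.trace_smul, Matrix.trace_one, smul_eq_mul,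
      smul_eq_mul]
    ring
  have h9 : 0 < Matrix.trace (W * E) := by
    rw [h5]
    have := mul_nonneg hc.le h6
    linarith
  rw [h8]
  have : 0 < 1 / c * Matrix.trace (W * E) := by positivity
  linarith

/-- Lower bound: if `M` is positive definite, symmetric and `M 1 = c 1`, then
`trace M⁻¹ > 1 / c`. -/
lemma trace_inv_gt {M : Matrix n n ℝ} (hMs : Mᵀ = M) {c m : ℝ} (hc : 0 < c) (hm : 0 < m)
    (hq : ∀ z : n → ℝ, m * (z ⬝ᵥ z) ≤ z ⬝ᵥ (M *ᵥ z))
    (h1 : M *ᵥ (fun _ => (1 : ℝ)) = fun _ => c) (hn : 2 ≤ Fintype.card n) :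
    1 / c < Matrix.trace M⁻¹ := by
  have hdet := det_ne_zero_of_quad hm hq
  have hu : IsUnit M.det := isUnit_iff_ne_zero.2 hdet
  have hWs : (M⁻¹)ᵀ = M⁻¹ := by rw [Matrix.transpose_nonsing_inv, hMs]
  have hW1 : M⁻¹ *ᵥ (fun _ => (1 : ℝ)) = fun _ => 1 / c := by
    have h2 : M *ᵥ (fun _ => 1 / c) = fun _ => (1 : ℝ) := by
      have : (fun _ : n => 1 / c) = (1 / c) • (fun _ : n => (1 : ℝ)) := by
        ext; simp
      rw [this, Matrix.mulVec_smul, h1]
      ext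
      simp [hc.ne']
    rw [← h2, Matrix.mulVec_mulVec, Matrix.nonsing_inv_mul _ hu, Matrix.one_mulVec]
  set W := M⁻¹ with hW
  set N : ℝ := (Fintype.card n : ℝ) with hN
  have hNpos : (2 : ℝ) ≤ N := by rw [hN]; exact_mod_cast hn
  have hrow : ∀ i, ∑ j, W i j = 1 / c := by
    intro i
    have := congrFun hW1 i
    simpa [Matrix.mulVec, dotProduct] using this
  have hcol : ∀ j, ∑ i, W i j = 1 / c := by
    intro j
    rw [← hrow j]
    exact Finset.sum_congr rfl (fun i _ => congrFun (congrFun hWs j) i)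
  -- strict positivity of the inverse form
  have hpos : ∀ z : n → ℝ, z ≠ 0 → 0 < z ⬝ᵥ (W *ᵥ z) := by
    intro z hz
    set y := W *ᵥ z with hy
    have hMy : M *ᵥ y = z := by
      rw [hy, Matrix.mulVec_mulVec, hW, Matrix.mul_nonsing_inv _ hu, Matrix.one_mulVec]
    have hy0 : y ≠ 0 := by
      intro h0
      rw [h0, Matrix.mulVec_zero] at hMy
      exact hz hMy.symm
    have h2 := hq y
    rw [hMy] at h2
    have h3 : 0 < y ⬝ᵥ y := by
      rcases (dot_self_nonneg' y).lt_or_eq with h | h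
      · exact h
      · exact absurd (dotProduct_self_eq_zero.1 h.symm) hy0
    rw [dotProduct_comm]
    nlinarith
  have hdiag : ∀ i, 1 / (N * c) < W i i := by
    intro i
    have hz : (fun j => (if j = i then (1 : ℝ) else 0) - 1 / N) ≠ 0 := by
      intro h0
      have := congrFun h0 i
      simp only [if_true, Pi.zero_apply] at this
      have h4 : 1 / N < 1 := by
        rw [div_lt_one (by linarith)]
        linarith
      linarith
    have h5 := hpos _ hz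
    have h6 : (fun j => (if j = i then (1 : ℝ) else 0) - 1 / N) ⬝ᵥ
        (W *ᵥ (fun j => (if j = i then (1 : ℝ) else 0) - 1 / N)) = W i i - 1 / (N * c) := by
      have h7 : ∀ a, (W *ᵥ (fun j => (if j = i then (1 : ℝ) else 0) - 1 / N)) a =
          W a i - 1 / (N * c) := by
        intro a
        simp only [Matrix.mulVec, dotProduct, mul_sub, mul_ite, mul_one, mul_zero,
          Finset.sum_sub_distrib, Finset.sum_ite_eq', Finset.mem_univ, if_true]
        rw [← Finset.sum_mul, hrow a]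
        field_simp
      simp only [dotProduct, h7]
      simp only [sub_mul, ite_mul, one_mul, zero_mul, Finset.sum_sub_distrib,
        Finset.sum_ite_eq', Finset.mem_univ, if_true, mul_sub]
      rw [← Finset.mul_sum, hcol i]
      simp only [Finset.sum_const, Finset.card_univ, nsmul_eq_mul]
      rw [← hN]
      field_simp
      ring
    rw [h6] at h5
    linarith
  rw [Matrix.trace]
  have h8 : ∑ _i : n, 1 / (N * c) < ∑ i, W.diag i := by
    apply Finset.sum_lt_sum_of_nonempty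
    · rw [Finset.univ_nonempty_iff, ← Fintype.card_pos_iff]
      omega
    · intro i _
      exact hdiag i
  refine lt_of_eq_of_lt ?_ h8
  simp only [Finset.sum_const, Finset.card_univ, nsmul_eq_mul]
  rw [← hN]
  field_simp

end Pool.Agent.Lib.MP_b24dd2_co
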