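import Mathlib

set_option autoImplicit false

namespace Pool.Agent.Lib.MP_b24dd2_co

/-- `Λ + u wᵀ + w uᵀ`: the change of the sum of squares. -/
lemma sum_sq_perturb {ι : Type*} [Fintype ι] (L : ι → ι → ℝ) (hL : ∀ a b, L a b = L b a)
    (u w : ι → ℝ) :
    ∑ a, ∑ b, (L a b + (u a * w b + w a * u b)) ^ 2 =
      ∑ a, ∑ b, L a b ^ 2 + 4 * ∑ a, ∑ b, L a b * (u a * w b) +
        2 * (∑ a, u a ^ 2) * (∑ b, w b ^ 2) + 2 * (∑ a, u a * w a) ^ 2 := by
  have h1 : ∑ a, ∑ b, L a b * (w a * u b) = ∑ a, ∑ b, L a b * (u a * w b) := by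
    rw [Finset.sum_comm]
    refine Finset.sum_congr rfl (fun a _ => Finset.sum_congr rfl (fun b _ => ?_))
    rw [hL b a]; ring
  have h2 : (∑ a, u a ^ 2) * (∑ b, w b ^ 2) = ∑ a, ∑ b, (u a * w b) ^ 2 := by
    rw [Finset.sum_mul_sum]
    refine Finset.sum_congr rfl (fun a _ => Finset.sum_congr rfl (fun b _ => ?_))
    ring
  have h3 : (∑ a, u a ^ 2) * (∑ b, w b ^ 2) = ∑ a, ∑ b, (w a * u b) ^ 2 := by
    rw [h2, Finset.sum_comm]
    refine Finset.sum_congr rfl (fun a _ => Finset.sum_congr rfl (fun b _ => ?_))
    ring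
  have h4 : (∑ a, u a * w a) ^ 2 = ∑ a, ∑ b, (u a * w b) * (w a * u b) := by
    rw [sq, Finset.sum_mul_sum]
    refine Finset.sum_congr rfl (fun a _ => Finset.sum_congr rfl (fun b _ => ?_))
    ring
  have h5 : ∑ a, ∑ b, (L a b + (u a * w b + w a * u b)) ^ 2 =
      ∑ a, ∑ b, L a b ^ 2 + 2 * ∑ a, ∑ b, L a b * (u a * w b) +
        2 * ∑ a, ∑ b, L a b * (w a * u b) + ∑ a, ∑ b, (u a * w b) ^ 2 +
          ∑ a, ∑ b, (w a * u b) ^ 2 + 2 * ∑ a, ∑ b, (u a * w b) * (w a * u b) := by
    simp only [Finset.mul_sum, ← Finset.sum_add_distrib]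
    refine Finset.sum_congr rfl (fun a _ => Finset.sum_congr rfl (fun b _ => ?_))
    ring
  rw [h5, h1, ← h2, ← h3, ← h4]
  ring

variable {v b : ℕ}

/-- Real entries of a Boolean matrix. -/
def ent (B : Fin v → Fin b → Bool) (i : Fin v) (j : Fin b) : ℝ := if B i j then 1 else 0

lemma ent_sq (B : Fin v → Fin b → Bool) (i : Fin v) (j : Fin b) :
    ent B i j ^ 2 = ent B i j := by
  unfold ent; split <;> simp

lemma ent_nonneg (B : Fin v → Fin b → Bool) (i : Fin v) (j : Fin b) : 0 ≤ ent B i j := by
  unfold ent; split <;> simp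

lemma ent_le_one (B : Fin v → Fin b → Bool) (i : Fin v) (j : Fin b) : ent B i j ≤ 1 := by
  unfold ent; split <;> simp

/-- Concurrences. -/
def conc (B : Fin v → Fin b → Bool) (a c : Fin v) : ℝ := ∑ j, ent B a j * ent B c j

lemma conc_comm (B : Fin v → Fin b → Bool) (a c : Fin v) : conc B a c = conc B c a :=
  Finset.sum_congr rfl (fun _ _ => mul_comm _ _)

/-- The switched matrix. -/
def sw (B : Fin v → Fin b → Bool) (i x : Fin v) (j l : Fin b) : Fin v → Fin b → Bool :=
  fun y q => if q = j ∨ q = l then B (Equiv.swap i x y) q else B y q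

lemma ent_sw (B : Fin v → Fin b → Bool) {i x : Fin v} {j l : Fin b} (hix : i ≠ x)
    (h1 : B i j = true) (h2 : B x j = false) (h3 : B x l = true) (h4 : B i l = false)
    (y : Fin v) (q : Fin b) :
    ent (sw B i x j l) y q = ent B y q +
      ((if y = x then (1 : ℝ) else 0) - (if y = i then 1 else 0)) *
        ((if q = j then (1 : ℝ) else 0) - (if q = l then 1 else 0)) := by
  have hjl : j ≠ l := by
    rintro rfl
    rw [h1] at h4
    exact Bool.noConfusion h4
  unfold ent sw
  by_cases hy1 : y = i
  · subst hy1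
    by_cases hq1 : q = j
    · subst hq1
      simp [hix, h1, h2, hjl]
    · by_cases hq2 : q = l
      · subst hq2
        simp [hix, h3, h4, hq1]
      · simp [hq1, hq2]
  · by_cases hy2 : y = x
    · subst hy2
      by_cases hq1 : q = j
      · subst hq1
        simp [hix.symm, h1, h2, hjl]
      · by_cases hq2 : q = l
        · subst hq2
          simp [hix.symm, h3, h4, hq1]
        · simp [hq1, hq2]
    · rw [Equiv.swap_apply_of_ne_of_ne hy1 hy2]
      simp [hy1, hy2]

/-- Row and column sums of a Boolean matrix. -/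
def Valid (k r : ℕ) (B : Fin v → Fin b → Bool) : Prop :=
  (∀ i, ∑ j, ent B i j = r) ∧ (∀ j, ∑ i, ent B i j = k)

lemma valid_sw {k r : ℕ} {B : Fin v → Fin b → Bool} (hB : Valid k r B)
    {i x : Fin v} {j l : Fin b} (hix : i ≠ x)
    (h1 : B i j = true) (h2 : B x j = false) (h3 : B x l = true) (h4 : B i l = false) :
    Valid k r (sw B i x j l) := by
  constructor
  · intro y
    simp only [ent_sw B hix h1 h2 h3 h4, Finset.sum_add_distrib, ← Finset.mul_sum,
      Finset.sum_sub_distrib, Finset.sum_ite_eq', Finset.mem_univ, if_true, sub_self, mul_zero,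
      add_zero]
    exact hB.1 y
  · intro q
    simp only [ent_sw B hix h1 h2 h3 h4, Finset.sum_add_distrib, ← Finset.sum_mul,
      Finset.sum_sub_distrib, Finset.sum_ite_eq', Finset.mem_univ, if_true, sub_self, zero_mul,
      add_zero]
    exact hB.2 q

/-- The potential: sum of the squares of all concurrences. -/
noncomputable def pot (B : Fin v → Fin b → Bool) : ℝ := ∑ a, ∑ c, conc B a c ^ 2

lemma switch_ineq {B : Fin v → Fin b → Bool}
    {i x : Fin v} {j l : Fin b} (hix : i ≠ x)
    (h1 : B i j = true) (h2 : B x j = false) (h3 : B x l = true) (h4 : B i l = false)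
    (hmin : pot B ≤ pot (sw B i x j l)) :
    0 ≤ ∑ y, (if y = i ∨ y = x then 0 else
      ((conc B x y - conc B i y) * (ent B y j - ent B y l) + (ent B y j - ent B y l) ^ 2)) := by
  have hjl : j ≠ l := by
    rintro rfl
    rw [h1] at h4
    exact Bool.noConfusion h4
  set u : Fin v → ℝ := fun y => (if y = x then (1 : ℝ) else 0) - (if y = i then 1 else 0) with hu
  set z : Fin b → ℝ := fun q => (if q = j then (1 : ℝ) else 0) - (if q = l then 1 else 0) with hz
  set w : Fin v → ℝ := fun y => (ent B y j - ent B y l) + u y with hw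
  have hsumz : ∀ f : Fin b → ℝ, ∑ q, f q * z q = f j - f l := by
    intro f
    simp only [hz, mul_sub, mul_ite, mul_one, mul_zero, Finset.sum_sub_distrib,
      Finset.sum_ite_eq', Finset.mem_univ, if_true]
  have hzz : ∑ q, z q * z q = 2 := by
    rw [hsumz z]
    simp only [hz, if_true, hjl, hjl.symm, if_false]
    norm_num
  have hconc : ∀ a c, conc (sw B i x j l) a c = conc B a c + (u a * w c + w a * u c) := by
    intro a c
    unfold conc
    have : ∀ q, ent (sw B i x j l) a q * ent (sw B i x j l) c q =
        ent B a q * ent B c q + u c * (ent B a q * z q) + u a * (ent B c q * z q) +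
          u a * u c * (z q * z q) := by
      intro q
      rw [ent_sw B hix h1 h2 h3 h4, ent_sw B hix h1 h2 h3 h4]
      simp only [hu, hz]
      ring
    have hz2 : z j - z l = 2 := by rw [← hsumz]; exact hzz
    simp only [this, Finset.sum_add_distrib, ← Finset.mul_sum, hsumz]
    simp only [hw]
    linear_combination (u a * u c) * hz2
  have hwi : w i = 0 := by
    simp only [hw, hu, ent, h1, h4, if_true, hix]
    norm_num
  have hwx : w x = 0 := by
    simp only [hw, hu, ent, h2, h3, if_true, hix.symm]
    norm_num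
  have hpot := sum_sq_perturb (conc B) (conc_comm B) u w
  have hsumu : ∀ f : Fin v → ℝ, ∑ a, f a * u a = f x - f i := by
    intro f
    simp only [hu, mul_sub, mul_ite, mul_one, mul_zero, Finset.sum_sub_distrib,
      Finset.sum_ite_eq', Finset.mem_univ, if_true]
  have hu2 : ∑ a, u a ^ 2 = 2 := by
    have := hsumu u
    simp only [← sq] at this
    rw [this]
    simp only [hu, if_true, hix, hix.symm, if_false]
    norm_num
  have huw : ∑ a, u a * w a = 0 := by
    have := hsumu w
    rw [hwi, hwx, sub_zero] at this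
    rw [← this]
    exact Finset.sum_congr rfl (fun a _ => mul_comm _ _)
  have hLw : ∑ a, ∑ c, conc B a c * (u a * w c) = ∑ c, (conc B x c - conc B i c) * w c := by
    rw [Finset.sum_comm]
    refine Finset.sum_congr rfl (fun c _ => ?_)
    have h6 : ∑ a, conc B a c * u a = conc B x c - conc B i c := hsumu (fun a => conc B a c)
    rw [← h6, Finset.sum_mul]
    exact Finset.sum_congr rfl (fun a _ => by ring)
  have hpot2 : pot (sw B i x j l) = ∑ a, ∑ c, (conc B a c + (u a * w c + w a * u c)) ^ 2 := by
    unfold pot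
    exact Finset.sum_congr rfl (fun a _ => Finset.sum_congr rfl (fun c _ => by rw [hconc]))
  rw [hpot2, hpot, hu2, huw, hLw] at hmin
  unfold pot at hmin
  have h5 : 0 ≤ ∑ c, (conc B x c - conc B i c) * w c + ∑ c, w c ^ 2 := by linarith
  rw [← Finset.sum_add_distrib] at h5
  refine h5.trans (le_of_eq (Finset.sum_congr rfl (fun y _ => ?_)))
  by_cases hy : y = i ∨ y = x
  · rw [if_pos hy]
    rcases hy with rfl | rfl
    · rw [hwi]; ring
    · rw [hwx]; ring
  · rw [if_neg hy]
    push Not at hy
    have : w y = ent B y j - ent B y l := by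
      simp only [hw, hu, hy.1, hy.2, if_false]
      ring
    rw [this]

/-- The key variance inequality at a minimiser of the potential. -/
lemma pair_ineq {k r : ℕ} {B : Fin v → Fin b → Bool} (hB : Valid k r B)
    (hmin : ∀ B' : Fin v → Fin b → Bool, Valid k r B' → pot B ≤ pot B') (i x : Fin v) :
    ∑ y, (if y = i ∨ y = x then 0 else (conc B i y - conc B x y) ^ 2) ≤
      2 * ((k : ℝ) - 1) * (r - conc B i x) := by
  by_cases hix : i = x
  · subst hix
    have h1 : conc B i i = r := by
      unfold conc
      rw [← hB.1 i]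
      exact Finset.sum_congr rfl (fun j _ => by rw [← sq, ent_sq])
    rw [h1, sub_self, mul_zero]
    refine le_of_eq (Finset.sum_eq_zero (fun y _ => ?_))
    simp
  set P : Fin b → ℝ := fun j => ent B i j * (1 - ent B x j) with hP
  set Q : Fin b → ℝ := fun l => ent B x l * (1 - ent B i l) with hQ
  set m : ℝ := r - conc B i x with hm
  have hPm : ∑ j, P j = m := by
    simp only [hP, mul_sub, mul_one, Finset.sum_sub_distrib]
    rw [hB.1 i]
    rfl
  have hQm : ∑ l, Q l = m := by
    simp only [hQ, mul_sub, mul_one, Finset.sum_sub_distrib]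
    rw [hB.1 x, hm, conc_comm B i x]
    rfl
  have hP0 : ∀ j, 0 ≤ P j := fun j =>
    mul_nonneg (ent_nonneg B i j) (by linarith [ent_le_one B x j])
  have hQ0 : ∀ l, 0 ≤ Q l := fun l =>
    mul_nonneg (ent_nonneg B x l) (by linarith [ent_le_one B i l])
  have hm0 : 0 ≤ m := by rw [← hPm]; exact Finset.sum_nonneg (fun j _ => hP0 j)
  -- the termwise inequality
  have hterm : ∀ j l, 0 ≤ P j * Q l * ∑ y, (if y = i ∨ y = x then 0 else
      ((conc B x y - conc B i y) * (ent B y j - ent B y l) + (ent B y j + ent B y l))) := by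
    intro j l
    by_cases h1 : B i j = true
    · by_cases h2 : B x j = false
      · by_cases h3 : B x l = true
        · by_cases h4 : B i l = false
          · refine mul_nonneg (mul_nonneg (hP0 j) (hQ0 l)) ?_
            have h5 := switch_ineq hix h1 h2 h3 h4 (hmin _ (valid_sw hB hix h1 h2 h3 h4))
            refine h5.trans (Finset.sum_le_sum (fun y _ => ?_))
            split
            · exact le_refl _
            · have h6 := ent_sq B y j
              have h7 := ent_sq B y l
              have h8 := mul_nonneg (ent_nonneg B y j) (ent_nonneg B y l)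
              nlinarith
          · have : Q l = 0 := by
              have h5 : ent B i l = 1 := by
                unfold ent
                simp only [Bool.not_eq_false] at h4
                rw [if_pos h4]
              simp only [hQ, h5, sub_self, mul_zero]
            rw [this]; simp
        · have : Q l = 0 := by
            simp only [hQ, ent, h3]
            simp
          rw [this]; simp
      · have : P j = 0 := by
          have h5 : ent B x j = 1 := by
            unfold ent
            simp only [Bool.not_eq_false] at h2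
            rw [if_pos h2]
          simp only [hP, h5, sub_self, mul_zero]
        rw [this]; simp
    · have : P j = 0 := by
        simp only [hP, ent, h1]
        simp
      rw [this]; simp
  set p : Fin v → ℝ := fun y => ∑ j, P j * ent B y j with hp
  set q : Fin v → ℝ := fun y => ∑ l, Q l * ent B y l with hq
  have hpq : ∀ y, p y - q y = conc B i y - conc B x y := by
    intro y
    simp only [hp, hq, conc, ← Finset.sum_sub_distrib, hP, hQ]
    refine Finset.sum_congr rfl (fun j _ => ?_)
    ring
  have hsum : 0 ≤ ∑ y, (if y = i ∨ y = x then 0 else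
      (m * ((conc B x y - conc B i y) * (p y - q y)) + m * (p y + q y))) := by
    have h1 : 0 ≤ ∑ j, ∑ l, P j * Q l * ∑ y, (if y = i ∨ y = x then 0 else
      ((conc B x y - conc B i y) * (ent B y j - ent B y l) + (ent B y j + ent B y l))) :=
      Finset.sum_nonneg (fun j _ => Finset.sum_nonneg (fun l _ => hterm j l))
    refine h1.trans (le_of_eq ?_)
    simp only [Finset.mul_sum]
    rw [Finset.sum_congr rfl (fun j _ => Finset.sum_comm)]
    rw [Finset.sum_comm]
    refine Finset.sum_congr rfl (fun y _ => ?_)
    split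
    · simp
    · have h2 : ∀ j l, P j * Q l * ((conc B x y - conc B i y) * (ent B y j - ent B y l) +
          (ent B y j + ent B y l)) =
          (conc B x y - conc B i y + 1) * ((P j * ent B y j) * Q l) +
            (1 - (conc B x y - conc B i y)) * (P j * (Q l * ent B y l)) := by
        intro j l; ring
      simp only [h2, Finset.sum_add_distrib, ← Finset.mul_sum, ← Finset.sum_mul, hQm, hPm]
      simp only [hp, hq]
      ring
  have hpsum : ∑ y, (if y = i ∨ y = x then 0 else p y) = m * ((k : ℝ) - 1) := by
    have h1 : ∀ y, (if y = i ∨ y = x then 0 else p y) =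
        p y - (if y = i then p i else 0) - (if y = x then p x else 0) := by
      intro y
      by_cases h2 : y = i
      · subst h2; simp [hix]
      · by_cases h3 : y = x
        · subst h3; simp [h2]
        · simp [h2, h3]
    simp only [h1, Finset.sum_sub_distrib, Finset.sum_ite_eq', Finset.mem_univ, if_true]
    have h2 : p x = 0 := by
      simp only [hp, hP]
      refine Finset.sum_eq_zero (fun j _ => ?_)
      have := ent_sq B x j
      linear_combination (-ent B i j) * this
    have h3 : p i = m := by
      rw [← hPm]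
      simp only [hp, hP]
      refine Finset.sum_congr rfl (fun j _ => ?_)
      have := ent_sq B i j
      linear_combination (1 - ent B x j) * this
    have h4 : ∑ y, p y = m * k := by
      simp only [hp]
      rw [Finset.sum_comm]
      simp only [← Finset.mul_sum, hB.2, ← Finset.sum_mul, hPm]
    rw [h2, h3, h4]; ring
  have hqsum : ∑ y, (if y = i ∨ y = x then 0 else q y) = m * ((k : ℝ) - 1) := by
    have h1 : ∀ y, (if y = i ∨ y = x then 0 else q y) =
        q y - (if y = i then q i else 0) - (if y = x then q x else 0) := by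
      intro y
      by_cases h2 : y = i
      · subst h2; simp [hix]
      · by_cases h3 : y = x
        · subst h3; simp [h2]
        · simp [h2, h3]
    simp only [h1, Finset.sum_sub_distrib, Finset.sum_ite_eq', Finset.mem_univ, if_true]
    have h2 : q i = 0 := by
      simp only [hq, hQ]
      refine Finset.sum_eq_zero (fun j _ => ?_)
      have := ent_sq B i j
      linear_combination (-ent B x j) * this
    have h3 : q x = m := by
      rw [← hQm]
      simp only [hq, hQ]
      refine Finset.sum_congr rfl (fun j _ => ?_)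
      have := ent_sq B x j
      linear_combination (1 - ent B i j) * this
    have h4 : ∑ y, q y = m * k := by
      simp only [hq]
      rw [Finset.sum_comm]
      simp only [← Finset.mul_sum, hB.2, ← Finset.sum_mul, hQm]
    rw [h2, h3, h4]; ring
  have hfin : m * ∑ y, (if y = i ∨ y = x then 0 else (conc B i y - conc B x y) ^ 2) ≤
      m * (2 * ((k : ℝ) - 1) * m) := by
    have h1 : ∑ y, (if y = i ∨ y = x then 0 else
        (m * ((conc B x y - conc B i y) * (p y - q y)) + m * (p y + q y))) =
        m * (∑ y, (if y = i ∨ y = x then 0 else p y)) +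
        m * (∑ y, (if y = i ∨ y = x then 0 else q y)) -
        m * ∑ y, (if y = i ∨ y = x then 0 else (conc B i y - conc B x y) ^ 2) := by
      simp only [Finset.mul_sum, ← Finset.sum_add_distrib, ← Finset.sum_sub_distrib]
      refine Finset.sum_congr rfl (fun y _ => ?_)
      split
      · simp
      · rw [hpq y]; ring
    rw [h1, hpsum, hqsum] at hsum
    linarith
  rcases hm0.lt_or_eq with h | h
  · exact le_of_mul_le_mul_left hfin h
  · -- m = 0: all P and Q vanish
    have hP00 : ∀ j, P j = 0 := by
      intro j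
      have := (Finset.sum_eq_zero_iff_of_nonneg (fun j _ => hP0 j)).1 (hPm.trans h.symm)
      exact this j (Finset.mem_univ j)
    have hQ00 : ∀ j, Q j = 0 := by
      intro j
      have := (Finset.sum_eq_zero_iff_of_nonneg (fun j _ => hQ0 j)).1 (hQm.trans h.symm)
      exact this j (Finset.mem_univ j)
    rw [← h, mul_zero]
    refine le_of_eq (Finset.sum_eq_zero (fun y _ => ?_))
    split
    · rfl
    · rw [← hpq y]
      simp only [hp, hq, hP00, hQ00]
      simp

lemma conc_row_sum {k r : ℕ} {B : Fin v → Fin b → Bool} (hB : Valid k r B) (a : Fin v) :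
    ∑ c, conc B a c = (r : ℝ) * k := by
  unfold conc
  rw [Finset.sum_comm]
  simp only [← Finset.mul_sum, hB.2, ← Finset.sum_mul, hB.1]

lemma conc_diag {k r : ℕ} {B : Fin v → Fin b → Bool} (hB : Valid k r B) (a : Fin v) :
    conc B a a = r := by
  unfold conc
  rw [← hB.1 a]
  exact Finset.sum_congr rfl (fun j _ => by rw [← sq, ent_sq])

/-- The global variance bound at a minimiser of the potential. -/
lemma variance_bound {k r : ℕ} {B : Fin v → Fin b → Bool} (hB : Valid k r B)
    (hmin : ∀ B' : Fin v → Fin b → Bool, Valid k r B' → pot B ≤ pot B') :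
    ((v : ℝ) - 1) * ∑ y, ∑ i, (if i = y then 0 else conc B i y ^ 2) ≤
      v * ((r : ℝ) * k - r) ^ 2 + ((k : ℝ) - 1) * (v * r * (v - k)) := by
  have h1 : ∑ i, ∑ x, ∑ y, (if y = i ∨ y = x then 0 else (conc B i y - conc B x y) ^ 2) ≤
      ∑ i, ∑ x, 2 * ((k : ℝ) - 1) * (r - conc B i x) :=
    Finset.sum_le_sum (fun i _ => Finset.sum_le_sum (fun x _ => pair_ineq hB hmin i x))
  have h2 : ∑ i : Fin v, ∑ x, 2 * ((k : ℝ) - 1) * (r - conc B i x) =
      2 * ((k : ℝ) - 1) * (v * r * (v - k)) := by
    simp only [← Finset.mul_sum, Finset.sum_sub_distrib, Finset.sum_const, Finset.card_univ,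
      Fintype.card_fin, nsmul_eq_mul, conc_row_sum hB]
    ring
  have h3 : ∑ i, ∑ x, ∑ y, (if y = i ∨ y = x then 0 else (conc B i y - conc B x y) ^ 2) =
      ∑ y, ∑ i, ∑ x, (if y = i ∨ y = x then 0 else (conc B i y - conc B x y) ^ 2) := by
    rw [Finset.sum_congr rfl (fun i _ => Finset.sum_comm), Finset.sum_comm]
  have h4 : ∀ y, ∑ i, ∑ x, (if y = i ∨ y = x then 0 else (conc B i y - conc B x y) ^ 2) =
      2 * ((v : ℝ) - 1) * ∑ i, (if i = y then 0 else conc B i y ^ 2) -
        2 * ((r : ℝ) * k - r) ^ 2 := by
    intro y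
    have e1 : ∀ i x, (if y = i ∨ y = x then 0 else (conc B i y - conc B x y) ^ 2) =
        (if i = y then 0 else conc B i y ^ 2) * (if x = y then 0 else 1) +
        (if i = y then 0 else 1) * (if x = y then 0 else conc B x y ^ 2) -
        2 * ((if i = y then 0 else conc B i y) * (if x = y then 0 else conc B x y)) := by
      intro i x
      by_cases hi : i = y
      · subst hi; simp
      · by_cases hx : x = y
        · subst hx; simp
        · have hi' : y ≠ i := Ne.symm hi
          have hx' : y ≠ x := Ne.symm hx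
          simp [hi, hx, hi', hx']
          ring
    have e2 : ∑ x : Fin v, (if x = y then (0 : ℝ) else 1) = (v : ℝ) - 1 := by
      have : ∀ x : Fin v, (if x = y then (0 : ℝ) else 1) = 1 - (if x = y then 1 else 0) := by
        intro x; split <;> norm_num
      simp only [this, Finset.sum_sub_distrib, Finset.sum_ite_eq', Finset.mem_univ, if_true]
      simp
    have e3 : ∑ x : Fin v, (if x = y then (0 : ℝ) else conc B x y) = (r : ℝ) * k - r := by
      have : ∀ x : Fin v, (if x = y then (0 : ℝ) else conc B x y) =
          conc B y x - (if x = y then conc B y y else 0) := by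
        intro x; split
        · rename_i h; subst h; ring
        · rw [conc_comm]; ring
      simp only [this, Finset.sum_sub_distrib, Finset.sum_ite_eq', Finset.mem_univ, if_true]
      rw [conc_row_sum hB, conc_diag hB]
    simp only [e1, Finset.sum_sub_distrib, Finset.sum_add_distrib, ← Finset.mul_sum,
      ← Finset.sum_mul, e2, e3]
    ring
  rw [h3, h2] at h1
  simp only [h4, Finset.sum_sub_distrib, ← Finset.mul_sum, Finset.sum_const, Finset.card_univ,
    Fintype.card_fin, nsmul_eq_mul] at h1
  linarith

/-- Sum of squared deviations of the concurrences from `c/v = r(k-1)/(v-1)`. -/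
lemma deviation_bound {k r : ℕ} {B : Fin v → Fin b → Bool} (hB : Valid k r B) (hv : 2 ≤ v)
    (hmin : ∀ B' : Fin v → Fin b → Bool, Valid k r B' → pot B ≤ pot B') {c : ℝ}
    (hc : c * ((v : ℝ) - 1) = v * (r * ((k : ℝ) - 1))) :
    ∑ y, ∑ i, (if i = y then 0 else (c / v - conc B i y) ^ 2) ≤ c * (v - k) := by
  have hvb := variance_bound hB hmin
  have hv1 : (0 : ℝ) < (v : ℝ) - 1 := by
    have : (2 : ℝ) ≤ v := by exact_mod_cast hv
    linarith
  have hv0 : (0 : ℝ) < v := by linarith
  have e2 : ∀ y : Fin v, ∑ x : Fin v, (if x = y then (0 : ℝ) else 1) = (v : ℝ) - 1 := by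
    intro y
    have : ∀ x : Fin v, (if x = y then (0 : ℝ) else 1) = 1 - (if x = y then 1 else 0) := by
      intro x; split <;> norm_num
    simp only [this, Finset.sum_sub_distrib, Finset.sum_ite_eq', Finset.mem_univ, if_true]
    simp
  have e3 : ∀ y : Fin v, ∑ x : Fin v, (if x = y then (0 : ℝ) else conc B x y) =
      (r : ℝ) * k - r := by
    intro y
    have : ∀ x : Fin v, (if x = y then (0 : ℝ) else conc B x y) =
        conc B y x - (if x = y then conc B y y else 0) := by
      intro x; split
      · rename_i h; subst h; ring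
      · rw [conc_comm]; ring
    simp only [this, Finset.sum_sub_distrib, Finset.sum_ite_eq', Finset.mem_univ, if_true]
    rw [conc_row_sum hB, conc_diag hB]
  have h1 : ∀ y : Fin v, ∑ i, (if i = y then 0 else (c / v - conc B i y) ^ 2) =
      (c / v) ^ 2 * ((v : ℝ) - 1) - 2 * (c / v) * ((r : ℝ) * k - r) +
        ∑ i, (if i = y then 0 else conc B i y ^ 2) := by
    intro y
    rw [← e2 y, ← e3 y]
    simp only [Finset.mul_sum, ← Finset.sum_add_distrib, ← Finset.sum_sub_distrib]
    refine Finset.sum_congr rfl (fun x _ => ?_)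
    split
    · ring
    · ring
  simp only [h1, Finset.sum_add_distrib, Finset.sum_const, Finset.card_univ,
    Fintype.card_fin, nsmul_eq_mul]
  set T : ℝ := ∑ y, ∑ i, (if i = y then 0 else conc B i y ^ 2) with hT
  set s : ℝ := (r : ℝ) * k - r with hs
  have hc' : c / v * ((v : ℝ) - 1) = s := by
    rw [div_mul_eq_mul_div, hc]
    field_simp
    rw [hs]; ring
  have h5 : v * ((c / v) ^ 2 * ((v : ℝ) - 1) - 2 * (c / v) * s) = - (c * s) := by
    have : (c / v) ^ 2 * ((v : ℝ) - 1) = (c / v) * s := by rw [← hc']; ring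
    rw [this]
    field_simp
    ring
  rw [h5]
  have h6 : ((v : ℝ) - 1) * (-(c * s) + T) ≤ ((v : ℝ) - 1) * (c * (v - k)) := by
    have h7 : ((v : ℝ) - 1) * (c * s) = v * s ^ 2 := by
      rw [← mul_assoc, mul_comm ((v : ℝ) - 1) c, hc, hs]; ring
    have h8 : ((v : ℝ) - 1) * (c * (v - k)) = ((k : ℝ) - 1) * (v * r * (v - k)) := by
      rw [← mul_assoc, mul_comm ((v : ℝ) - 1) c, hc]; ring
    rw [h8]
    have h9 : ((v : ℝ) - 1) * (-(c * s) + T) = ((v : ℝ) - 1) * T - v * s ^ 2 := by
      rw [mul_add, mul_neg, h7]; ring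
    rw [h9]
    linarith
  exact le_of_mul_le_mul_left h6 hv1

end Pool.Agent.Lib.MP_b24dd2_co
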